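import Pool.Agent.Lib.A35.BCH
import Pool.Agent.Lib.A35.B_FCT
import Pool.Agent.Lib.UR.M_NORM

/-! The canonical degree of a curve under extension of the constants. -/

open Set Polynomial

set_option linter.unusedSectionVars false

noncomputable section

namespace Pool.Agent.Lib.NAK

open Pool.Agent.Lib.MP_7fcda1_ag Pool.Agent.Lib.UR Pool.Agent.Lib.A35

section one
variable {k F ι ι' : Type} [Field k] [Field F] [Algebra k F]

/-- The tangent lines of a parametrised curve. -/
def wr (D : Derivation k F F) (w : ι → F) (p : ι × ι) : F :=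
  w p.1 * D (w p.2) - w p.2 * D (w p.1)

theorem wr_eq (D : Derivation k F F) (w : ι → F) {c : F} (hc : c ≠ 0) (p : ι × ι) :
    wr D w p = c ^ 2 * wr D (fun j => w j / c) p := by
  have h : ∀ j, D (w j) = c * D (w j / c) + w j / c * D c := fun j => by
    conv_lhs => rw [← mul_div_cancel₀ (w j) hc]
    rw [D.leibniz, smul_eq_mul, smul_eq_mul]
  rw [wr, wr, h, h]
  field_simp
  ring

variable [IsFF k F]

/-- The parametrisation is unramified at `v`. -/
def Imm (D : Derivation k F F) (W : Div k F) (v : Place k F) (w : ι → F) : Prop :=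
  ∃ i j, w i ≠ 0 ∧ VGe v.O (ord v.O (w i)) w ∧ D (w j / w i) ≠ 0 ∧ ord v.O (D (w j / w i)) ≤ -W v

variable {D : Derivation k F F} {W : Div k F} {v : Place k F} {w : ι → F} {w' : ι' → F}

theorem Imm.left [Finite ι'] (h : Imm D W v w) (hw : w' ≠ 0) :
    Imm D W v fun p : ι × ι' => w p.1 * w' p.2 := by
  obtain ⟨i, j, h1, h2, h3⟩ := h
  obtain ⟨l, h4, h5⟩ := exists_vord (V := v.O) hw
  refine ⟨(i, l), (j, l), mul_ne_zero h1 h4, fun p => ?_, by rwa [mul_div_mul_right _ _ h4]⟩
  rw [ord_mul h1 h4]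
  exact (h2 _).mul ((vge_iff hw).2 h5.le _)

theorem Imm.right [Finite ι] (h : Imm D W v w') (hw : w ≠ 0) :
    Imm D W v fun p : ι × ι' => w p.1 * w' p.2 := by
  obtain ⟨i, j, h1, h2, h3⟩ := h
  obtain ⟨l, h4, h5⟩ := exists_vord (V := v.O) hw
  refine ⟨(l, i), (l, j), mul_ne_zero h4 h1, fun p => ?_, by rwa [mul_div_mul_left _ _ h4]⟩
  rw [ord_mul h4 h1]
  exact ((vge_iff hw).2 h5.le _).mul (h2 _)

theorem imm_pair {t : F} (h1 : 0 ≤ ord v.O t) (h2 : D t ≠ 0) (h3 : ord v.O (D t) ≤ -W v) :
    Imm D W v (opt fun _ : Unit => t) := by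
  refine ⟨none, some (), one_ne_zero, fun o => ?_, by simpa [opt] using ⟨h2, h3⟩⟩
  cases o
  · exact ge_ord
  · exact Or.inr (by simpa [opt] using h1)

theorem le_ht_wr [Finite ι] (h : ∀ v, Imm D W v w) (h0 : wr D w ≠ 0) :
    2 * ht k w + degD W ≤ ht k (wr D w) := by
  have h1 : vdiv k (wr D w) ≤ (2 : ℤ) • vdiv k w - W := fun v => by
    obtain ⟨i, j, h1, h2, h3, h4⟩ := h v
    have hw : w ≠ 0 := Function.ne_iff.2 ⟨i, h1⟩
    have h5 : wr D w (i, j) = w i ^ 2 * D (w j / w i) := by
      rw [wr_eq D w h1]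
      simp [wr, h1]
    have h6 := (vge_iff (V := v.O) h0).2 le_rfl (i, j)
    rw [h5, ge_iff (mul_ne_zero (pow_ne_zero _ h1) h3), ord_mul (pow_ne_zero _ h1) h3, ord_pow]
      at h6
    have h7 := (vge_iff hw).1 h2
    simp only [Finsupp.sub_apply, Finsupp.smul_apply, vdiv_apply, smul_eq_mul]
    push_cast at h6
    linarith
  have h2 := degD_mono h1
  rw [map_sub, map_smul, smul_eq_mul] at h2
  rw [ht, ht]
  linarith

variable [CharZero k] [IsAlgClosed k]

theorem ht_wr_le [Finite ι] (hW : ∀ (v : Place k F) (π : F), ord v.O π = 1 → W v = -ord v.O (D π))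
    (h0 : wr D w ≠ 0) : ht k (wr D w) ≤ 2 * ht k w + degD W := by
  have hw : w ≠ 0 := fun h => h0 (funext fun p => by simp [wr, h])
  have h1 : (2 : ℤ) • vdiv k w - W ≤ vdiv k (wr D w) := fun v => by
    obtain ⟨π, -, hπ⟩ := v.disc.exists_ord 1
    obtain ⟨i, h1, h2⟩ := exists_vord (V := v.O) hw
    have h3 : ∀ j, Ge v.O 0 (w j / w i) := fun j => by
      have h4 := ((vge_iff (V := v.O) hw).2 h2.le j).mul (ge_ord (V := v.O) (a := (w i)⁻¹))
      rwa [ord_inv, add_neg_cancel, ← div_eq_mul_inv] at h4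
    simp only [Finsupp.sub_apply, Finsupp.smul_apply, vdiv_apply, smul_eq_mul]
    refine (vge_iff h0).1 fun p => ?_
    rw [wr_eq D w h1, hW v π hπ, ← h2]
    exact (((ge_ord (a := w i)).pow 2).mul (((h3 _).mul (Fc.ge_der D v hπ (h3 _))).sub
      ((h3 _).mul (Fc.ge_der D v hπ (h3 _))))).mono (by push_cast; linarith)
  have h2 := degD_mono h1
  rw [map_sub, map_smul, smul_eq_mul] at h2
  rw [ht, ht]
  linarith

/-- Every curve has an unramified parametrisation. -/
theorem exists_imm (hD : D ≠ 0)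
    (hW : ∀ (v : Place k F) (π : F), ord v.O π = 1 → W v = -ord v.O (D π)) :
    ∃ (ι : Type) (_ : Finite ι) (w : ι → F), wr D w ≠ 0 ∧ ∀ v, Imm D W v w := by
  classical
  obtain ⟨t, ht, -⟩ := IsFF.ex (κ := k) (L := F)
  have h1 := Fc.der_ne_zero hD ht
  have h2 : ∀ T : Finset (Place k F), ∃ (ι : Type) (_ : Finite ι) (w : ι → F), wr D w ≠ 0 ∧
      ∀ v, (v ∈ T ∨ (div k t v = 0 ∧ div k (D t) v = 0 ∧ W v = 0)) → Imm D W v w := fun T => by
    induction T using Finset.induction_on with
    | empty =>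
      refine ⟨_, inferInstance, opt fun _ : Unit => t, Function.ne_iff.2 ⟨(none, some ()), by
        simpa [wr, opt] using h1⟩, fun v hv => ?_⟩
      obtain ⟨h3, h4, h5⟩ := hv.resolve_left (Finset.notMem_empty v)
      rw [div_apply] at h3 h4
      exact imm_pair h3.ge h1 (by rw [h4, h5, neg_zero])
    | insert x T _ ih =>
      obtain ⟨ι, _, w, h3, h4⟩ := ih
      obtain ⟨π, -, hπ⟩ := x.disc.exists_ord 1
      have hw : w ≠ 0 := fun h => h3 (funext fun p => by simp [wr, h])
      obtain ⟨p, hp⟩ := Function.ne_iff.1 h3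
      refine ⟨_, inferInstance, fun q : ι × Option Unit => w q.1 * opt (fun _ => π) q.2,
        Function.ne_iff.2 ⟨((p.1, none), (p.2, none)), by simpa [wr, opt] using hp⟩, fun v hv => ?_⟩
      rw [Finset.mem_insert, or_assoc] at hv
      rcases hv with rfl | hv
      · exact (imm_pair (by omega) (Fc.ord_der hD v hπ (by omega)).1
          (by rw [hW v π hπ, neg_neg])).right hw
      · exact (h4 v hv).left (Function.ne_iff.2 ⟨none, one_ne_zero⟩)
  obtain ⟨ι, _, w, h3, h4⟩ := h2 ((div k t).support ∪ (div k (D t)).support ∪ W.support)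
  refine ⟨ι, inferInstance, w, h3, fun v => h4 v (or_iff_not_imp_left.2 fun h => ?_)⟩
  simpa [and_assoc] using h

end one

section ext
variable {k E κ F : Type} [Field k] [Field E] [Algebra k E] [Field κ] [Field F] [Algebra k κ]
  [Algebra κ F] [Algebra E F] [Algebra k F] [IsScalarTower k κ F] [IsScalarTower k E F]
  [CharZero k] [IsAlgClosed k] [IsFF k E]

theorem der_comm {τ : E} (hτ : Transcendental k τ) (d : Derivation k E E) (hd : d τ = 1)
    (D : Derivation κ F F) (f : E) :
    D (algebraMap E F f) = D (algebraMap E F τ) * algebraMap E F (d f) := by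
  obtain ⟨P, h0, h1⟩ := Fc.exists_rel hτ f
  obtain ⟨Q, hQ⟩ := Fc.chain P
  have h2 := congrArg (algebraMap E F) (hQ E d τ f)
  have h3 := hQ F (D.restrictScalars k) (algebraMap E F τ) (algebraMap E F f)
  have h4 : ∀ R : k[X][X], aevalAeval (algebraMap E F τ) (algebraMap E F f) R =
      algebraMap E F (aevalAeval τ f R) := fun R =>
    (Fc.map_aa (IsScalarTower.toAlgHom k E F) τ f R).symm
  rw [h4, h4, h4, h0, map_zero, map_zero] at h3
  rw [h0, map_zero, map_zero, hd, mul_one, map_add, map_mul] at h2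
  refine mul_left_cancel₀ ((map_ne_zero (algebraMap E F)).2 h1) ?_
  change 0 = _ * D _ + _ * D _ at h3
  linear_combination D (algebraMap E F τ) * h2 - h3

theorem indep_ext {τ : E} (hτ : Transcendental k τ) (d : Derivation k E E) (hd : d τ = 1)
    (D : Derivation κ F F) (hD : D (algebraMap E F τ) ≠ 0) (ι : Type) (x : ι → E)
    (hx : LinearIndependent k x) : LinearIndependent κ fun i => algebraMap E F (x i) := by
  classical
  have hd0 : d ≠ 0 := fun h => by simp [h] at hd
  have hc0 := der_comm hτ d hd D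
  generalize D (algebraMap E F τ) = g at hc0 hD
  rw [linearIndependent_iff'] at hx ⊢
  intro s
  replace hx := hx s
  induction s using Finset.induction_on generalizing x with
  | empty => simp
  | insert j s hj ih =>
    intro c hc
    have h0 : x j ≠ 0 := fun h => by
      simpa using hx (Pi.single j 1) (by
        rw [Finset.sum_insert hj, h, smul_zero, zero_add]
        exact Finset.sum_eq_zero fun i hi => by
          rw [Pi.single_eq_of_ne (ne_of_mem_of_not_mem hi hj), zero_smul]) j
        (Finset.mem_insert_self j s)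
    have h0' := (map_ne_zero (algebraMap E F)).2 h0
    have h1 : ∀ i ∈ s, c i = 0 := by
      refine ih (fun i => d (x i / x j)) (fun a ha i hi => ?_) c ?_
      · have h2 : d (∑ i ∈ s, a i • (x i / x j)) = 0 := by simpa only [map_sum, d.map_smul] using ha
        have h3 : IsIntegral k (∑ i ∈ s, a i • (x i / x j)) :=
          (not_not.1 fun h => Fc.der_ne_zero hd0 h h2 : IsAlgebraic k _).isIntegral
        obtain ⟨b, hb⟩ := minpoly.mem_range_of_degree_eq_one k _
          (IsAlgClosed.degree_eq_one_of_irreducible k (minpoly.irreducible h3))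
        have h4 := hx (Function.update a j (-b)) (by
          rw [Finset.sum_insert hj, Function.update_self, Finset.sum_congr rfl fun i hi => by
            rw [Function.update_of_ne (ne_of_mem_of_not_mem hi hj)], neg_smul, Algebra.smul_def, hb,
            Finset.sum_mul, neg_add_eq_zero]
          exact Finset.sum_congr rfl fun i _ => by rw [smul_mul_assoc, div_mul_cancel₀ _ h0]) i
          (Finset.mem_insert_of_mem hi)
        rwa [Function.update_of_ne (ne_of_mem_of_not_mem hi hj)] at h4
      · have h2 := congrArg (fun z => D (z / algebraMap E F (x j))) hc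
        simp only [Finset.sum_insert hj, add_div, Finset.sum_div, smul_div_assoc, div_self h0',
          map_add, map_sum, D.map_smul, ← map_div₀, hc0, zero_div, map_zero,
          D.map_one_eq_zero, smul_zero, zero_add, ← mul_smul_comm, ← Finset.mul_sum] at h2
        exact (mul_eq_zero.1 h2).resolve_left hD
    rw [Finset.sum_insert hj, Finset.sum_eq_zero fun i hi => by rw [h1 i hi, zero_smul], add_zero,
      smul_eq_zero, or_iff_left h0'] at hc
    intro i hi
    rcases Finset.mem_insert.1 hi with rfl | hi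
    exacts [hc, h1 i hi]

/-- Heights and the canonical degree under an extension of algebraically closed fields of
constants. -/
theorem ext_const [IsAlgClosed κ] [IsFF κ F] (hg : Gen κ (algebraMap E F)) {τ : E}
    (hτ : Transcendental κ (algebraMap E F τ)) :
    (∀ (ι : Type) [Finite ι] (w : ι → E), ht k w = ht κ fun i => algebraMap E F (w i)) ∧
    ∀ (D : Derivation κ F F) (W : Div κ F), D ≠ 0 →
      (∀ (v : Place κ F) (π : F), ord v.O π = 1 → W v = -ord v.O (D π)) →
      ∃ (d : Derivation k E E) (W' : Div k E), d ≠ 0 ∧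
        (∀ (v : Place k E) (π : E), ord v.O π = 1 → W' v = -ord v.O (d π)) ∧ degD W' ≤ degD W := by
  have : CharZero κ := charZero_of_injective_algebraMap (algebraMap k κ).injective
  have h1 : Transcendental k τ := fun h => hτ (h.algebraMap.extendScalars (algebraMap k κ).injective)
  obtain ⟨d₀, -, h2, -⟩ := st_FCT k E
  obtain ⟨D₀, -, h3, -⟩ := st_FCT κ F
  have h4 : ((d₀ τ)⁻¹ • d₀) τ = 1 := inv_mul_cancel₀ (Fc.der_ne_zero h2 h1)
  generalize (d₀ τ)⁻¹ • d₀ = d at h4
  have h5 := (H91.st_HLD k E κ F hg (indep_ext h1 d h4 D₀ (Fc.der_ne_zero h3 hτ))).2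
  refine ⟨h5, fun D W hD hW => ?_⟩
  have hd : d ≠ 0 := fun h => by simp [h] at h4
  obtain ⟨W', hW'⟩ := Fc.exists_W hd
  obtain ⟨ι, _, w, h6, h7⟩ := exists_imm hd hW'
  have h8 := Fc.der_ne_zero hD hτ
  have h9 : wr D (fun i => algebraMap E F (w i)) =
      fun p => D (algebraMap E F τ) * algebraMap E F (wr d w p) := funext fun p => by
    simp only [wr, der_comm h1 d h4 D (w _), map_sub, map_mul]
    ring
  obtain ⟨p, hp⟩ := Function.ne_iff.1 h6
  have h10 := ht_wr_le (w := fun i => algebraMap E F (w i)) hW (Function.ne_iff.2 ⟨p, by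
    rw [h9]
    exact mul_ne_zero h8 ((_root_.map_ne_zero _).2 hp)⟩)
  rw [h9, M.NORM.ht_mul h8, ← h5, ← h5] at h10
  have h11 := le_ht_wr h7 h6
  exact ⟨d, W', hd, hW', by linarith⟩

end ext

end Pool.Agent.Lib.NAK
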