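import Pool.Agent.Lib.UR.Defs
import Pool.Agent.Lib.UR.Iface

/-! Complex curves on a projective model. -/

noncomputable section

namespace Pool.Agent.Lib.NAK

open Pool.Agent.Lib.MP_7fcda1_ag Pool.Agent.Lib.UR

variable {L ι τ : Type} [Field L] [Algebra ℂ L]

/-- A map from a smooth complex curve with function field `F` to the model: `χ` restricts the
functions of a ring `O` that contains the affine coordinates. -/
structure Crv (y : ι → L) (p : τ → L) where
  F : Type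
  [fld : Field F]
  [alg : Algebra ℂ F]
  [ff : IsFF ℂ F]
  O : Subalgebra ℂ L
  i : ι
  j : τ
  y0 : y i ≠ 0
  p0 : p j ≠ 0
  hy : ∀ l, y l / y i ∈ O
  hp : ∀ l, p l / p j ∈ O
  χ : O →ₐ[ℂ] F

attribute [instance] Crv.fld Crv.alg Crv.ff

/-- The system `y` on the curve. -/
def Crv.Y {y : ι → L} {p : τ → L} (C : Crv y p) (l : ι) : C.F := C.χ ⟨y l / y C.i, C.hy l⟩

/-- The system `p` on the curve. -/
def Crv.P {y : ι → L} {p : τ → L} (C : Crv y p) (l : τ) : C.F := C.χ ⟨p l / p C.j, C.hp l⟩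

/-- `D = P - q H` has non-negative degree on every curve. -/
def NefC (q : ℕ) (y : ι → L) (p : τ → L) : Prop := ∀ C : Crv y p, q * ht ℂ C.Y ≤ ht ℂ C.P

/-- Every curve of the model, with function field `F`, that lies on none of the hypersurfaces
`g m = 0` has `D · C ≠ 0` and `H · C ≤ N (2 g - 2)`. -/
def HypC (q : ℕ) (y : ι → L) (p : τ → L) (N : ℕ) (g : ℕ → MvPolynomial ι ℂ) : Prop :=
  ∀ C : Crv y p, Gen ℂ C.Y → (∀ m, MvPolynomial.aeval C.Y (g m) ≠ 0) →
    q * ht ℂ C.Y ≠ ht ℂ C.P ∧ ∀ (D : Derivation ℂ C.F C.F) (W : Div ℂ C.F), D ≠ 0 →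
      (∀ (v : Place ℂ C.F) (π : C.F), ord v.O π = 1 → W v = -ord v.O (D π)) →
      ht ℂ C.Y ≤ N * degD W

/-- Every map from the projective line to the model is constant. -/
def NoRatC (y : ι → L) : Prop := ∀ (i : ι) (χ : GD.chart y i →ₐ[ℂ] RatFunc ℂ) (f : GD.chart y i),
  ∃ c : ℂ, χ f = algebraMap ℂ (RatFunc ℂ) c

end Pool.Agent.Lib.NAK
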