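import Pool.Agent.Lib.NAK.Two
import Pool.Agent.Lib.PN.B_BIG
import Pool.Agent.Lib.PN.B_CND
import Pool.Agent.Lib.A35.SDefs

/-! From curves to sections on all subvarieties. -/

open Submodule Filter Set

noncomputable section

namespace Pool.Agent.Lib.NAK

open Pool.Agent.Lib.MP_7fcda1_ag Pool.Agent.Lib.UR

variable {L ι τ : Type} [Field L] [Algebra ℂ L] {y : ι → L} {p : τ → L}

/-- `D = P - q H` has non-negative degree on every curve, over every field of constants. -/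
def CNef (q : ℕ) (y : ι → L) (p : τ → L) : Prop :=
  ∀ (O : Subalgebra ℂ L) (i : ι) (j : τ) (hy : ∀ l, y l / y i ∈ O) (hp : ∀ l, p l / p j ∈ O),
    y i ≠ 0 → p j ≠ 0 → ∀ (κ F : Type) [Field κ] [Field F] [Algebra ℂ κ] [Algebra κ F]
      [Algebra ℂ F] [IsScalarTower ℂ κ F] [IsFF κ F] (χ : O →ₐ[ℂ] F),
      q * ht κ (fun l => χ ⟨_, hy l⟩) ≤ ht κ fun l => χ ⟨_, hp l⟩

/-- The ring of a chart. -/
def chR (a : Ix y p) : Subalgebra ℂ L where
  carrier := {x | x ∈ loc (top (dat ℂ y p)) {a} 0}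
  mul_mem' hx hy := loc_mul (d := 0) (d' := 0) hx hy (add_zero 0)
  add_mem' hx hy := (loc (top (dat ℂ y p)) {a} 0).add_mem hx hy
  algebraMap_mem' c := by
    rw [Algebra.algebraMap_eq_smul_one]
    exact smul_mem (loc (top (dat ℂ y p)) {a} 0) c (loc_of (dat ℂ y p).one)

theorem chR_mem {a : Ix y p} (o : chR a) : o.1 ∈ loc (top (dat ℂ y p)) {a} 0 := o.2

/-- The ideal of a subvariety in a chart. -/
def chI (P : Fam (dat ℂ y p)) (a : Ix y p) : Ideal (chR a) where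
  carrier := {x | x.1 ∈ loc P {a} 0}
  zero_mem' := zero_mem (loc P {a} 0)
  add_mem' hx hy := (loc P {a} 0).add_mem hx hy
  smul_mem' c _ hx := loc_mul (d' := 0) (chR_mem c) hx (add_zero 0)

theorem chI_prime {P : Fam (dat ℂ y p)} (hP : P.Pr) {a : Ix y p} (ha : (dat ℂ y p).z a ∉ P.J 1) :
    (chI P a).IsPrime := by
  refine ⟨(Ideal.ne_top_iff_one _).2 fun h => ha ?_, fun {x x'} h => ?_⟩
  · simpa using P.mul ((dat ℂ y p).zm a) (hP.den ha (dat ℂ y p).one h)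
  · by_contra hc
    rw [not_or] at hc
    exact hc.2 (hP.cancel' (chR_mem x) hc.1 (chR_mem x') (by rw [add_zero]; exact h))

theorem div_mem_loc {J : Fam (dat ℂ y p)} {a : Ix y p} {d : ℤ × ℤ} {x : L} :
    x / gg a d ∈ loc J {a} 0 ↔ x ∈ loc J {a} d := by
  refine ⟨fun h => ?_, fun h => ?_⟩
  · simpa [gg_ne a d] using loc_mul' h (gg_loc ℂ a d) (zero_add d)
  · rw [div_eq_mul_inv, ← gg_neg]
    exact loc_mul' h (gg_loc ℂ a _) (add_neg_cancel d)

/-- The affine coordinates. -/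
def yc (a : Ix y p) (i : ι) : chR a :=
  ⟨y i / y a.1.2, show _ ∈ loc (top (dat ℂ y p)) {a} 0 by
    simpa [gg] using (div_mem_loc (J := top _) (a := a)).2 (loc_of (y_mem ℂ y p i))⟩

/-- The affine coordinates. -/
def pc (a : Ix y p) (j : τ) : chR a :=
  ⟨p j / p a.1.1, show _ ∈ loc (top (dat ℂ y p)) {a} 0 by
    simpa [gg] using (div_mem_loc (J := top _) (a := a)).2 (loc_of (p_mem ℂ y p j))⟩

theorem span_div {σ : Type} (w : σ → L) {c : L} (hc : c ≠ 0) :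
    span ℂ (range w) = span ℂ {c} * span ℂ (range fun l => w l / c) := by
  rw [span_mul_span, singleton_mul, ← range_comp]
  exact congrArg (fun f => span ℂ (range f)) (funext fun l => (mul_div_cancel₀ _ hc).symm)

theorem mem_RR (a : Ix y p) (m n : ℕ) (x : L) : x ∈ RR ℂ y p (m, n) ↔
    ∃ o ∈ span ℂ (range (pc a)) ^ m * span ℂ (range (yc a)) ^ n, gg a (m, n) * (o : L) = x := by
  have h : (span ℂ (range (pc a)) ^ m * span ℂ (range (yc a)) ^ n).map (chR a).val.toLinearMap =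
      span ℂ (range fun l => p l / p a.1.1) ^ m * span ℂ (range fun l => y l / y a.1.2) ^ n := by
    rw [Submodule.map_mul, Submodule.map_pow, Submodule.map_pow, map_span, map_span,
      ← range_comp, ← range_comp]
    rfl
  rw [RR_nat, span_div p a.p0, span_div y a.y0, mul_pow, mul_pow, mul_mul_mul_comm, ← h, span_pow,
    span_pow, span_mul_span, singleton_pow, singleton_pow, singleton_mul_singleton, ← gg_nat,
    mem_span_singleton_mul]
  exact ⟨fun ⟨_, ⟨o, ho, rfl⟩, h1⟩ => ⟨o, ho, h1⟩, fun ⟨o, ho, h1⟩ => ⟨_, ⟨o, ho, rfl⟩, h1⟩⟩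

section
variable {F : Type} [Field F] [Algebra ℂ F] {a : Ix y p} (χ : chR a →ₐ[ℂ] F)

/-- The system of class `P + H` on the subvariety. -/
def hh (b : τ × ι) : F := χ (pc a b.1) * χ (yc a b.2)

/-- The system of class `P + (q + 2) H` on the subvariety. -/
def qq (q : ℕ) (b : (τ × ι) × (Fin (q + 1) → ι)) : F := hh χ b.1 * ∏ l, χ (yc a (b.2 l))

theorem yc_self : χ (yc a a.1.2) = 1 := by
  rw [show yc a a.1.2 = 1 from Subtype.ext (div_self a.y0), map_one]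

theorem pc_self : χ (pc a a.1.1) = 1 := by
  rw [show pc a a.1.1 = 1 from Subtype.ext (div_self a.p0), map_one]

theorem hh_self : hh χ a.1 = 1 := by rw [hh, yc_self, pc_self, mul_one]

theorem sys_hh (n : ℕ) : sys ℂ (hh χ) ^ n =
    (span ℂ (range (pc a)) ^ n * span ℂ (range (yc a)) ^ n).map χ.toLinearMap := by
  rw [← mul_pow, Submodule.map_pow, span_mul_span, map_span, sys,
    insert_eq_of_mem (show (1 : F) ∈ range (hh χ) from ⟨_, hh_self χ⟩)]
  refine congrArg (fun S => span ℂ S ^ n) (Set.ext fun x => ⟨?_, ?_⟩)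
  · rintro ⟨b, rfl⟩
    exact ⟨_, ⟨_, ⟨b.1, rfl⟩, _, ⟨b.2, rfl⟩, rfl⟩, map_mul χ _ _⟩
  · rintro ⟨_, ⟨_, ⟨j, rfl⟩, _, ⟨i, rfl⟩, rfl⟩, rfl⟩
    exact ⟨(j, i), (map_mul χ _ _).symm⟩

theorem mem_sys_hh (o : chR a) : ∃ n, χ o ∈ sys ℂ (hh χ) ^ n := by
  obtain ⟨n, hn⟩ := (loc_single (chR_mem o)).exists
  rw [den_eq (Den.pow (mem_singleton a) n),
    show n • (1 : ℤ × ℤ) = ((n : ℤ), (n : ℤ)) from Prod.ext (by simp) (by simp), add_zero] at hn
  obtain ⟨o', h1, h2⟩ := (mem_RR a n n _).1 hn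
  obtain rfl : o' = o := Subtype.ext (mul_left_cancel₀ (gg_ne a _) h2)
  exact ⟨n, sys_hh χ n ▸ ⟨o', h1, rfl⟩⟩

theorem gen_hh (hχ : ∀ z : F, ∃ o o', z = χ o / χ o') : Gen ℂ (hh χ) := by
  have h1 : ∀ n, sys ℂ (hh χ) ^ n ≤
      (IntermediateField.adjoin ℂ (range (hh χ))).toSubalgebra.toSubmodule := fun n => by
    induction n with
    | zero =>
      rw [pow_zero, one_eq_span, span_le]
      rintro _ rfl
      exact one_mem (IntermediateField.adjoin ℂ (range (hh χ)))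
    | succ n ih =>
      rw [pow_succ]
      exact Submodule.mul_le.2 fun x hx x' hx' => Subalgebra.mul_mem _ (ih hx) (sys_le (U :=
        (IntermediateField.adjoin ℂ (range (hh χ))).toSubalgebra.toSubmodule)
          (Subalgebra.one_mem _) (fun j => IntermediateField.subset_adjoin _ _ ⟨j, rfl⟩) hx')
  refine eq_top_iff.2 fun z _ => ?_
  obtain ⟨o, o', rfl⟩ := hχ z
  obtain ⟨n, hn⟩ := mem_sys_hh χ o
  obtain ⟨n', hn'⟩ := mem_sys_hh χ o'
  exact IntermediateField.div_mem _ (h1 n hn) (h1 n' hn')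

theorem qq_self (q : ℕ) (b : τ × ι) : qq χ q (b, fun _ => a.1.2) = hh χ b := by
  simp [qq, yc_self]

/-- The class `N D + P + H` is pseudo-effective on the subvariety. -/
theorem big [Fintype ι] [Fintype τ] {q : ℕ} (h : CNef q y p)
    (hχ : ∀ z : F, ∃ o o', z = χ o / χ o') (N : ℕ) :
    ∃ t, 0 < t ∧ cl (sys ℂ (hh χ) ^ (t * N * 2 + t)) / sys ℂ (qq χ q) ^ (t * N) ≠ ⊥ := by
  by_contra hn
  push Not at hn
  have hg := gen_hh χ hχ
  obtain ⟨m, hm⟩ := PN.X45.exists_dim hg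
  rcases m with _ | m
  · exact PN.X45.ne_bot_of_dim hg hm (one_mem_pow (one_mem_sys _) _) (hn 1 one_pos)
  obtain ⟨κ, K, _, _, _, _, _, _, _, σ, h1⟩ := PN.uBM ℂ F _ _ _ (qq χ q) m 2 N hg
    (PN.X45.gen_mono hg fun b => ⟨_, qq_self χ q b⟩) hm hn
  have hY : (fun l => σ (χ (yc a l))) ≠ 0 :=
    Function.ne_iff.2 ⟨a.1.2, by simp [yc_self]⟩
  have hP : (fun l => σ (χ (pc a l))) ≠ 0 :=
    Function.ne_iff.2 ⟨a.1.1, by simp [pc_self]⟩
  have hH : (fun b : τ × ι => σ (χ (pc a b.1)) * σ (χ (yc a b.2))) ≠ 0 :=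
    Function.ne_iff.2 ⟨a.1, by simp [pc_self, yc_self]⟩
  have e1 : (fun o => σ (opt (hh χ) o)) =
      opt fun b : τ × ι => σ (χ (pc a b.1)) * σ (χ (yc a b.2)) := by
    funext o
    cases o <;> simp [opt, hh]
  have e2 : (fun o => σ (opt (qq χ q) o)) = opt fun b : (τ × ι) × (Fin (q + 1) → ι) =>
      σ (χ (pc a b.1.1)) * σ (χ (yc a b.1.2)) * ∏ l, σ (χ (yc a (b.2 l))) := by
    funext o
    cases o <;> simp [opt, hh, qq]
  rw [e1, e2, JdgB.dg_opt (j := a.1) (by simp [pc_self, yc_self]),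
    JdgB.dg_opt (j := (a.1, fun _ => a.1.2)) (by simp [pc_self, yc_self]),
    JdgB.dg_mul (G := fun b : τ × ι => σ (χ (pc a b.1)) * σ (χ (yc a b.2)))
      (y := fun f : Fin (q + 1) → ι => ∏ l, σ (χ (yc a (f l)))) hH
      (Function.ne_iff.2 ⟨fun _ => a.1.2, by simp [yc_self]⟩),
    JdgB.dg_mul hP hY, JdgB.dg_prod hY] at h1
  have h2 : (q : ℤ) * dg κ (fun l => σ (χ (yc a l))) ≤ dg κ fun l => σ (χ (pc a l)) :=
    h (chR a) _ _ (fun l => (yc a l).2) (fun l => (pc a l).2) a.y0 a.p0 κ K (σ.comp χ)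
  push_cast at h1
  linarith

end

theorem exists_res {R : Type} [CommRing R] [Algebra ℂ R] (I : Ideal R) [I.IsPrime] :
    ∃ (F : Type) (_ : Field F) (_ : Algebra ℂ F) (χ : R →ₐ[ℂ] F), (∀ o, χ o = 0 ↔ o ∈ I) ∧
      ∀ z : F, ∃ o o', z = χ o / χ o' := by
  refine ⟨FractionRing (R ⧸ I), inferInstance, inferInstance,
    (IsScalarTower.toAlgHom ℂ (R ⧸ I) _).comp (Ideal.Quotient.mkₐ ℂ I), fun o =>
    (FaithfulSMul.algebraMap_eq_zero_iff (R ⧸ I) _).trans Ideal.Quotient.eq_zero_iff_mem,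
    fun z => ?_⟩
  obtain ⟨b, b', -, rfl⟩ := IsFractionRing.div_surjective (A := R ⧸ I) z
  obtain ⟨o, rfl⟩ := Ideal.Quotient.mk_surjective b
  obtain ⟨o', rfl⟩ := Ideal.Quotient.mk_surjective b'
  exact ⟨o, o', rfl⟩

theorem pse [Fintype ι] [Fintype τ] {q : ℕ} (h : CNef q y p) (μ : ℕ) :
    Pse (dat ℂ y p) μ (μ * q - 1) := by
  intro P hP a ha
  have := chI_prime hP ha
  obtain ⟨F, _, _, χ, hk, hχ⟩ := exists_res (chI P a)
  replace hk : ∀ o, χ o = 0 ↔ o.1 ∈ loc P {a} 0 := hk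
  obtain ⟨N, hN⟩ : ∃ N, N = 2 * μ * (q + 1) := ⟨_, rfl⟩
  obtain ⟨t, ht, hne⟩ := big χ h hχ N
  obtain ⟨s, hs, hs0⟩ := Submodule.exists_mem_ne_zero_of_ne_bot hne
  obtain ⟨c, e, hc, hc'⟩ := PN.st_CND ℂ F _ (τ × ι) (hh χ)
    (fun b => s * qq χ q (b, fun _ => b.2) ^ (t * N)) (t * N * 2 + t) (gen_hh χ hχ)
    fun b => mem_div_iff_forall_mul_mem.1 hs _ (Submodule.pow_mem_pow _ (mem_sys _ _) _)
  obtain ⟨W, hW⟩ : ∃ W, W = t * N * (e + 1) := ⟨_, rfl⟩
  obtain ⟨E, hE⟩ : ∃ E, E = (e + 1) * (t * N * 2 + t) + e := ⟨_, rfl⟩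
  have key : ∀ b : τ × ι, ∃ o : chR a, gg a (E, E) * o ∈ RR ℂ y p (E, E) ∧
      χ o = c * s ^ (e + 1) * χ (pc a b.1 ^ W * yc a b.2 ^ ((q + 2) * W)) := fun b => by
    have h1 := hc' (e + 1) fun _ => b
    rw [← hE, sys_hh] at h1
    obtain ⟨o, h2, h3⟩ := h1
    refine ⟨o, (mem_RR a E E _).2 ⟨o, h2, rfl⟩, h3.trans ?_⟩
    simp only [Finset.prod_const, Finset.card_univ, Fintype.card_fin, qq, hh, map_mul, map_pow, hW]
    ring
  choose o h1 h2 using key
  let D : ℤ × ℤ := ((W : ℤ), (((q + 2) * W : ℕ) : ℤ))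
  have h3 : ∀ b : Ix y p, ((pc a b.1.1 ^ W * yc a b.1.2 ^ ((q + 2) * W) : chR a) : L) =
      gg b D / gg a D := fun b => by
    rw [gg_nat, gg_nat, mul_div_mul_comm, ← div_pow, ← div_pow]
    rfl
  refine ⟨((E : ℤ), (E : ℤ)) + -D, fun b => gg a (E, E) * o b.1 * gg b (-D), Sct.of hP
    (fun b => loc_mul (loc_of (h1 b.1)) (gg_loc ℂ b _) rfl) (fun b b' => ?_) (a₀ := a) fun h4 => ?_,
    ?_, ?_⟩
  · have h4 : gg b D * (gg a (E, E) * o b'.1) - gg b' D * (gg a (E, E) * o b.1) ∈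
        P.J (D + ((E : ℤ), (E : ℤ))) := by
      refine hP.den ha (sub_mem (RR_mul (gg_mem ℂ b _ _) (h1 _)) (RR_mul (gg_mem ℂ b' _ _) (h1 _)))
        (div_mem_loc.1 ?_)
      have h5 := (hk (pc a b.1.1 ^ W * yc a b.1.2 ^ ((q + 2) * W) * o b'.1 -
        pc a b'.1.1 ^ W * yc a b'.1.2 ^ ((q + 2) * W) * o b.1)).1 (by
          rw [map_sub, map_mul χ _ (o _), map_mul χ _ (o _), h2, h2]
          ring)
      rw [Subalgebra.coe_sub, Subalgebra.coe_mul _ _ (o _), Subalgebra.coe_mul _ _ (o _), h3, h3]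
        at h5
      rwa [show (gg b D * (gg a (E, E) * o b'.1) - gg b' D * (gg a (E, E) * o b.1)) /
        gg a (D + ((E : ℤ), (E : ℤ))) = gg b D / gg a D * o b'.1 - gg b' D / gg a D * o b.1 by
          rw [gg_add]
          field_simp [gg_ne]]
    rw [show gg a (E, E) * o b'.1 * gg b' (-D) - gg a (E, E) * o b.1 * gg b (-D) =
      (gg b D * (gg a (E, E) * o b'.1) - gg b' D * (gg a (E, E) * o b.1)) *
        (gg b (-D) * gg b' (-D)) by
      rw [gg_neg, gg_neg]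
      field_simp [gg_ne]]
    exact loc_mul' (loc_of h4) (loc_mul (loc_mono (gg_loc ℂ b _) le_rfl (s1 _ _))
      (loc_mono (gg_loc ℂ b' _) le_rfl (s2 _ _)) rfl) (by ring)
  · have h5 := div_mem_loc.2 h4
    rw [show gg a (E, E) * o a.1 * gg a (-D) / gg a (((E : ℤ), (E : ℤ)) + -D) = o a.1 by
      rw [gg_add]
      field_simp [gg_ne]] at h5
    have h6 := (hk _).2 h5
    rw [h2, map_mul, map_pow, map_pow, pc_self, yc_self] at h6
    exact mul_ne_zero hc (pow_ne_zero (e + 1) hs0) (by simpa using h6)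
  · have h5 : (0 : ℤ) < t := Int.natCast_pos.2 ht
    simp only [D, Prod.fst_add, Prod.fst_neg, hE, hW]
    push_cast
    have : (0 : ℤ) < (e + 1) * (t * N + t) + e := by positivity
    linarith
  · have h5 : (1 : ℤ) ≤ t := by exact_mod_cast ht
    simp only [D, Prod.fst_add, Prod.fst_neg, Prod.snd_add, Prod.snd_neg, hE, hW, hN]
    push_cast
    have h6 : (0 : ℤ) ≤ ((e + 1) * t - e) * (μ * (q + 1)) :=
      mul_nonneg (by nlinarith [Int.natCast_nonneg e]) (by positivity)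
    have h7 : (0 : ℤ) ≤ (e + 1) * t := by positivity
    nlinarith [Int.natCast_nonneg e]

/-- Theorems of Kleiman and Nakai: a class that is nef on curves is a limit of semi-ample
classes. -/
theorem nef_of_cnef [Fintype ι] [Fintype τ] {q : ℕ} (hy : y ≠ 0) (hp : p ≠ 0) (h : CNef q y p) :
    A35.Nef q y p := fun m => by
  rcases m.eq_zero_or_pos with rfl | hm
  · refine ⟨1, one_pos, fun x hx => le_cl _ ?_⟩
    simp only [mul_zero, pow_zero, mul_one, A35.Sec] at hx ⊢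
    exact mem_div_iff_forall_mul_mem.2 fun v hv => le_cl _ (by
      simpa using Submodule.mul_mem_mul hx hv)
  · exact nef_of_pse hy hp q m hm (by simpa using pse h (2 * m))

end Pool.Agent.Lib.NAK
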