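import Pool.Agent.Lib.NAK.Emb
import Pool.Agent.Lib.NAK.Can
import Pool.Agent.Lib.NAK.Sec
import Pool.Agent.Lib.NAK.SDefs
import Pool.Agent.Lib.A35.Kit

/-! Transfer of curves from an extension field to the complex numbers. -/

open Set
open scoped IntermediateField Polynomial

noncomputable section

namespace Pool.Agent.Lib.NAK

open Pool.Agent.Lib.MP_7fcda1_ag Pool.Agent.Lib.UR Pool.Agent.Lib.A35

/-- A curve over an algebraically closed extension field comes from a complex curve, by a twist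
of the constants that fixes a given countable set. -/
theorem trf {κ F ι : Type} [Field κ] [IsAlgClosed κ] [Field F] [Algebra κ F] [IsFF κ F] [Finite ι]
    (c₀ : ℂ →+* κ) {u : ι → F} (hu : Gen κ u) {V : Set F} (hV : V.Countable) {k₀ : Set ℂ}
    (hk : k₀.Countable) : ∃ (E : Type) (_ : Field E) (_ : Algebra ℂ E) (_ : IsFF ℂ E)
      (ψ : E →+* F) (u' : ι → E), Gen ℂ u' ∧ (∀ l, ψ (u' l) = u l) ∧ V ⊆ range ψ ∧
      (∀ c ∈ k₀, ψ (algebraMap ℂ E c) = algebraMap κ F (c₀ c)) ∧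
      (∀ (ι' : Type) [Finite ι'] (w : ι' → E), ht ℂ w = ht κ fun i => ψ (w i)) ∧
      ∀ (D : Derivation κ F F) (W : Div κ F), D ≠ 0 →
        (∀ (v : Place κ F) (π : F), ord v.O π = 1 → W v = -ord v.O (D π)) →
        ∃ (d : Derivation ℂ E E) (W' : Div ℂ E), d ≠ 0 ∧
          (∀ (v : Place ℂ E) (π : E), ord v.O π = 1 → W' v = -ord v.O (d π)) ∧
          degD W' ≤ degD W := by
  obtain ⟨i, hi⟩ : ∃ i, Transcendental κ (u i) := by
    by_contra h
    obtain ⟨t, ht, -⟩ := IsFF.ex (κ := κ) (L := F)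
    have h1 : IntermediateField.adjoin κ (range u) ≤ algebraicClosure κ F :=
      IntermediateField.adjoin_le_iff.2 (range_subset_iff.2 fun l =>
        mem_algebraicClosure_iff.2 (not_not.1 fun h1 => h ⟨l, h1⟩))
    exact ht (mem_algebraicClosure_iff.1 (h1 (hu.ge trivial)))
  have := IsFF.finite hi
  choose Q hQ hQ' using fun l => Algebra.IsAlgebraic.isAlgebraic (R := κ⟮u i⟯) (u l)
  obtain ⟨s, hs, h1⟩ := exists_consts (κ := κ) {u i}
    (countable_range fun p : ι × ℕ => ((Q p.1).coeff p.2 : F))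
    (range_subset_iff.2 fun p => ((Q p.1).coeff p.2).2)
  obtain ⟨s', hs', h2⟩ := exists_consts (κ := κ) (range u) hV fun _ _ => hu.ge trivial
  obtain ⟨φ, h3, h4⟩ := exists_twist c₀ hk (hs.union hs')
  let : Algebra ℂ κ := φ.toAlgebra
  let : Algebra ℂ F := ((algebraMap κ F).comp φ).toAlgebra
  have : IsScalarTower ℂ κ F := .of_algebraMap_eq fun _ => rfl
  let E := IntermediateField.adjoin ℂ (range u)
  let u' : ι → E := fun l => ⟨u l, IntermediateField.subset_adjoin _ _ ⟨l, rfl⟩⟩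
  have hg : Gen ℂ u' := by
    apply IntermediateField.lift_injective
    rw [IntermediateField.lift_adjoin, IntermediateField.lift_top, ← range_comp]
    rfl
  have h5 : ∀ l, IsAlgebraic ℂ⟮u' i⟯ (u' l) := fun l => by
    let f : ℂ⟮u' i⟯ →+* F := (algebraMap E F).comp (algebraMap ℂ⟮u' i⟯ E)
    have h6 := h1 f.fieldRange (fun c hc => by
      obtain ⟨c, rfl⟩ := h4 (.inl hc)
      exact ⟨algebraMap ℂ _ c, rfl⟩)
      (singleton_subset_iff.2 ⟨⟨_, IntermediateField.mem_adjoin_simple_self ℂ _⟩, rfl⟩)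
    obtain ⟨R, hR⟩ := (Polynomial.mem_lifts _).1 ((Polynomial.lifts_iff_coeff_lifts (f := f)
      ((Q l).map (algebraMap κ⟮u i⟯ F))).2 fun n => by
        rw [Polynomial.coeff_map]
        exact h6 ⟨(l, n), rfl⟩)
    refine ⟨R, fun h => Polynomial.map_ne_zero (f := algebraMap κ⟮u i⟯ F) (hQ l) (by
      rw [← hR, h, Polynomial.map_zero]), (algebraMap E F).injective ?_⟩
    rw [Polynomial.aeval_def, Polynomial.hom_eval₂, Polynomial.eval₂_eq_eval_map, hR,
      ← Polynomial.eval₂_eq_eval_map, map_zero]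
    exact hQ' l
  have h6 : Transcendental ℂ (u' i) := fun h => hi
    ((h.algebraMap (A := F)).extendScalars (algebraMap ℂ κ).injective)
  have : IsFF ℂ E := Dim.isFF hg (H91.BCH.dim_one h6 ⟨fun x => by
    have h7 : IntermediateField.adjoin ℂ (range u') ≤
        (algebraicClosure ℂ⟮u' i⟯ E).restrictScalars ℂ :=
      IntermediateField.adjoin_le_iff.2 (range_subset_iff.2 fun l =>
        mem_algebraicClosure_iff.2 (h5 l))
    exact mem_algebraicClosure_iff.1 (h7 (hg.ge trivial))⟩)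
  obtain ⟨h7, h8⟩ := ext_const (k := ℂ) (κ := κ) (E := E) (F := F) (eq_top_iff.2 (hu.ge.trans
    (IntermediateField.adjoin.mono κ _ _ (range_subset_iff.2 fun l => ⟨u' l, rfl⟩)))) (τ := u' i) hi
  refine ⟨E, inferInstance, inferInstance, this, algebraMap E F, u', hg, fun _ => rfl,
    fun v hv => ⟨⟨v, h2 E.toSubfield (fun c hc => ?_) (IntermediateField.subset_adjoin _ _) hv⟩,
      rfl⟩, fun c hc => congrArg (algebraMap κ F) (h3 c hc), h7, h8⟩
  obtain ⟨c, rfl⟩ := h4 (.inr hc)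
  exact E.algebraMap_mem c

variable {L ι τ : Type} [Field L] [Algebra ℂ L]

variable {y : ι → L} {p : τ → L}

/-- The transfer for a curve on the model. -/
theorem trf_crv [Finite ι] [Finite τ] {σ κ F : Type} [Finite σ] [Field κ] [IsAlgClosed κ] [Field F]
    [Algebra ℂ κ] [Algebra κ F] [Algebra ℂ F] [IsScalarTower ℂ κ F] [IsFF κ F] {O : Subalgebra ℂ L}
    {i : ι} {j : τ} (hy : ∀ l, y l / y i ∈ O) (hp : ∀ l, p l / p j ∈ O) (hi : y i ≠ 0)
    (hj : p j ≠ 0) (χ : O →ₐ[ℂ] F) {u : σ → F} (hu : Gen κ u) (g : ℕ → MvPolynomial ι ℂ) :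
    ∃ C : Crv y p, ht ℂ C.Y = ht κ (fun l => χ ⟨_, hy l⟩) ∧ ht ℂ C.P = ht κ (fun l => χ ⟨_, hp l⟩) ∧
      (range u ⊆ range (fun l => χ ⟨_, hy l⟩) → Gen ℂ C.Y) ∧
      (∀ m, MvPolynomial.aeval C.Y (g m) = 0 → MvPolynomial.aeval (fun l => χ ⟨_, hy l⟩) (g m) = 0) ∧
      ∀ (D : Derivation κ F F) (W : Div κ F), D ≠ 0 →
        (∀ (v : Place κ F) (π : F), ord v.O π = 1 → W v = -ord v.O (D π)) →
        ∃ (d : Derivation ℂ C.F C.F) (W' : Div ℂ C.F), d ≠ 0 ∧
          (∀ (v : Place ℂ C.F) (π : C.F), ord v.O π = 1 → W' v = -ord v.O (d π)) ∧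
          degD W' ≤ degD W := by
  let a : ι ⊕ τ → O := Sum.elim (fun l => ⟨_, hy l⟩) fun l => ⟨_, hp l⟩
  obtain ⟨k₀, hk, h1⟩ := exists_lift (fun l => (a l : L)) _
    (countable_range fun m => MvPolynomial.rename Sum.inl (g m))
  obtain ⟨E, _, _, _, ψ, u', h2, h3, h4, h5, h6, h7⟩ :=
    trf (algebraMap ℂ κ) hu (countable_range fun l => χ (a l)) hk
  choose b hb using fun l => h4 ⟨l, rfl⟩
  obtain ⟨⟨χ', h8⟩, h9⟩ := h1 E F ψ b
    (fun c hc => (h5 c hc).trans (IsScalarTower.algebraMap_apply ℂ κ F c).symm) fun t ht => by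
      have h8 : MvPolynomial.aeval a t = 0 :=
        Subtype.ext ((MvPolynomial.comp_aeval_apply _ O.val t).trans ht)
      rw [funext hb, ← MvPolynomial.comp_aeval_apply, h8, map_zero]
  let C : Crv y p := ⟨E, Algebra.adjoin ℂ (range fun l => (a l : L)), i, j, hi, hj,
    fun l => Algebra.subset_adjoin ⟨.inl l, rfl⟩, fun l => Algebra.subset_adjoin ⟨.inr l, rfl⟩, χ'⟩
  have e1 : C.Y = fun l => b (.inl l) := funext fun l => h8 (.inl l)
  have e2 : C.P = fun l => b (.inr l) := funext fun l => h8 (.inr l)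
  refine ⟨C, ?_, ?_, fun h => ?_, fun m h => ?_, h7⟩
  · rw [e1]
    exact (h6 _ _).trans (congrArg (ht κ) (funext fun l => hb _))
  · rw [e2]
    exact (h6 _ _).trans (congrArg (ht κ) (funext fun l => hb _))
  · rw [e1]
    refine eq_top_iff.2 (h2.ge.trans (IntermediateField.adjoin.mono ℂ _ _ ?_))
    rintro _ ⟨l, rfl⟩
    obtain ⟨l', h10⟩ := h ⟨l, rfl⟩
    exact ⟨l', ψ.injective ((hb _).trans (h10.trans (h3 l).symm))⟩
  · have h10 := h9 _ ⟨m, rfl⟩
    rw [e1] at h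
    rw [MvPolynomial.aeval_rename, MvPolynomial.aeval_rename, funext hb] at h10
    exact h10.symm.trans ((congrArg ψ h).trans (map_zero ψ))

variable [Finite ι] [Finite τ] {q : ℕ}

theorem cnef_of (h : NefC q y p) : CNef q y p := by
  intro O i j hy hp hi hj κ F _ _ _ _ _ _ _ χ
  have : CharZero κ := charZero_of_injective_algebraMap (algebraMap ℂ κ).injective
  obtain ⟨kb, Fb, _, _, _, _, _, _, _, _, _, _, c, -, -, -, h1⟩ := H91.st_BCH κ F
  let : Algebra ℂ kb := ((algebraMap κ kb).comp (algebraMap ℂ κ)).toAlgebra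
  let : Algebra ℂ Fb := ((algebraMap κ Fb).comp (algebraMap ℂ κ)).toAlgebra
  have : IsScalarTower ℂ kb Fb := .of_algebraMap_eq fun x => IsScalarTower.algebraMap_apply κ kb Fb _
  have : IsScalarTower ℂ F Fb := .of_algebraMap_eq fun x => by
    rw [IsScalarTower.algebraMap_apply ℂ κ F]
    exact IsScalarTower.algebraMap_apply κ F Fb _
  obtain ⟨n, u, hu⟩ := H91.BCH.gen_ff (k := kb) (L := Fb)
  obtain ⟨C, h2, h3, -⟩ := trf_crv hy hp hi hj ((IsScalarTower.toAlgHom ℂ F Fb).comp χ) hu 0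
  have h4 := h C
  rw [h2, h3] at h4
  rw [h1, h1, mul_left_comm]
  exact mul_le_mul_of_nonneg_left h4 (Int.natCast_nonneg c)

theorem hyp_of {N : ℕ} {g : ℕ → MvPolynomial ι ℂ} {i : ι} (hi : y i = 1) (hy : Gen ℂ y) (hp : p ≠ 0)
    (hg : ∀ m, MvPolynomial.aeval y (g m) ≠ 0) (h' : NefC q y p) (h : HypC q y p N g) :
    Hyp q y p N := by
  intro κ F _ _ _ _ _ _ _ _ σ hσ
  obtain ⟨j, hj⟩ := Function.ne_iff.1 hp
  have h1 : Gen κ fun l => σ (y l) := by
    refine eq_top_iff.2 (hσ.ge.trans (IntermediateField.adjoin_le_iff.2 ?_))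
    rintro _ ⟨x, rfl⟩
    have h2 : IntermediateField.adjoin ℂ (range y) ≤
        ((IntermediateField.adjoin κ (range fun l => σ (y l))).restrictScalars ℂ).comap σ :=
      IntermediateField.adjoin_le_iff.2 (range_subset_iff.2 fun l =>
        IntermediateField.subset_adjoin κ _ ⟨l, rfl⟩)
    exact h2 (hy.ge trivial)
  obtain ⟨C, h2, h3, h4, h5, h6⟩ := trf_crv (O := ⊤) (i := i) (j := j) (fun _ => trivial)
    (fun _ => trivial) (hi ▸ one_ne_zero) hj (σ.comp (Subalgebra.val ⊤)) h1 g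
  have e1 : (fun l => σ.comp (Subalgebra.val ⊤) ⟨y l / y i, trivial⟩) = fun l => σ (y l) :=
    funext fun l => by simp [hi]
  have e2 : (fun l => σ.comp (Subalgebra.val ⊤) ⟨p l / p j, trivial⟩) =
      fun l => σ (p j)⁻¹ * σ (p l) := funext fun l => by simp [div_eq_inv_mul]
  rw [e1] at h2 h4 h5
  rw [e2, M.NORM.ht_mul ((map_ne_zero σ).2 (inv_ne_zero hj))] at h3
  obtain ⟨h7, h8⟩ := h C (h4 subset_rfl) fun m h7 => hg m (σ.injective
    ((MvPolynomial.comp_aeval_apply _ σ _).trans ((h5 m h7).trans (map_zero σ).symm)))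
  replace h7 := (h' C).lt_of_ne h7
  rw [h2, h3] at h7
  refine ⟨h7, fun D W hD hW => ?_⟩
  obtain ⟨d, W', h9, h10, h11⟩ := h6 D W hD hW
  exact h2.ge.trans ((h8 d W' h9 h10).trans (mul_le_mul_of_nonneg_left h11 (Int.natCast_nonneg N)))

omit [Finite ι] [Finite τ] in
theorem CNef.nefC (h : CNef q y p) : NefC q y p := fun C =>
  h C.O C.i C.j C.hy C.hp C.y0 C.p0 ℂ C.F C.χ

/-- The theorem for the canonical class, in terms of complex curves. -/
theorem kin_nef (hKIN : St_KIN) {e : ℕ} (X : Mod₀ L (e + 1)) {N : ℕ}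
    {g : ℕ → MvPolynomial (Fin (X.N + 1)) ℂ} (hg : ∀ m, MvPolynomial.aeval X.y (g m) ≠ 0)
    (h' : NefC (e + 2) X.y X.G) (h : HypC (e + 2) X.y X.G N g) :
    (((e + 1 : ℕ) : ℕ∞) : WithBot ℕ∞) ≤ MP_9a2ae6_ag.kodaira ℂ L (e + 1) :=
  hKIN L e X N (nef_of_cnef (Function.ne_iff.2 ⟨0, X.y0 ▸ one_ne_zero⟩) X.G_ne (cnef_of h'))
    (hyp_of X.y0 X.gen X.G_ne hg h' h)

end Pool.Agent.Lib.NAK
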