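import Pool.Agent.Lib.NAK.Fuj
import Pool.Agent.Lib.UR.Defs

/-! The bigraded algebra of two linear systems. -/

open Submodule Filter Set

noncomputable section

namespace Pool.Agent.Lib.NAK

open Pool.Agent.Lib.UR

variable {k L A ι τ : Type} [Field k] [Field L] [Algebra k L]

theorem coeff_mem {X : Dat k L A} (J : Fam X) {g f : AddMonoidAlgebra L (ℤ × ℤ)}
    (hg : ∀ d, g.coeff d ∈ X.R d) (hf : ∀ d, f.coeff d ∈ J.J d) (d : ℤ × ℤ) :
    (g * f).coeff d ∈ J.J d := by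
  rw [AddMonoidAlgebra.coeff_mul_apply_left]
  exact sum_mem fun e _ => J.mul' (hg e) (hf _) (by ring)

theorem coeff_single_mem {X : Dat k L A} (J : Fam X) {e : ℤ × ℤ} {x : L} (hx : x ∈ J.J e)
    (d : ℤ × ℤ) : (AddMonoidAlgebra.single e x).coeff d ∈ J.J d := by
  rw [AddMonoidAlgebra.coeff_single, Finsupp.single_apply]
  split_ifs with h
  · exact h ▸ hx
  · exact zero_mem _

/-- The ascending chain condition. -/
theorem wf (X : Dat k L A) (G : Set (AddMonoidAlgebra L (ℤ × ℤ))) (hG : G.Finite)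
    (h1 : ∀ g ∈ G, ∀ d, g.coeff d ∈ X.R d)
    (h2 : ∀ d, ∀ x ∈ X.R d, AddMonoidAlgebra.single d x ∈ Algebra.adjoin k G) :
    WellFounded fun J J' : Fam X => J' < J := by
  have : IsNoetherianRing (Algebra.adjoin k G) :=
    isNoetherianRing_of_fg ⟨hG.toFinset, by simp⟩
  have hS : ∀ g ∈ Algebra.adjoin k G, ∀ d, g.coeff d ∈ X.R d := fun g hg => by
    induction hg using Algebra.adjoin_induction with
    | mem g hg => exact h1 g hg
    | algebraMap c =>
      refine coeff_single_mem (top X) (e := 0) ?_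
      rw [Algebra.algebraMap_eq_smul_one]
      exact smul_mem _ c X.one
    | add f g _ _ hf hg => exact fun d => add_mem (hf d) (hg d)
    | mul f g _ _ hf hg => exact coeff_mem (top X) hf hg
  let I : Fam X → Ideal (Algebra.adjoin k G) := fun J =>
    { carrier := {f | ∀ d, f.1.coeff d ∈ J.J d}
      zero_mem' := fun d => zero_mem _
      add_mem' := fun hf hg d => add_mem (hf d) (hg d)
      smul_mem' := fun g _ hf => coeff_mem J (hS g.1 g.2) hf }
  refine Subrelation.wf (r := InvImage (· > ·) I) (fun {J J'} h => ?_)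
    (InvImage.wf I wellFounded_gt)
  refine lt_iff_le_not_ge.2 ⟨fun f hf d => h.le d (hf d), fun h3 => h.not_ge fun d x hx => ?_⟩
  simpa using h3 (show (⟨_, h2 d x (J.le d hx)⟩ : Algebra.adjoin k G) ∈ I J from
    coeff_single_mem J hx) d

variable (k) (y : ι → L) (p : τ → L)

/-- The graded pieces. -/
def RR (d : ℤ × ℤ) : Submodule k L :=
  if 0 ≤ d then span k (range p) ^ d.1.toNat * span k (range y) ^ d.2.toNat else ⊥

theorem RR_nat (a b : ℕ) : RR k y p (a, b) = span k (range p) ^ a * span k (range y) ^ b := by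
  rw [RR, if_pos ⟨Int.natCast_nonneg a, Int.natCast_nonneg b⟩]
  simp

variable {k y p} in
theorem RR_cases {d : ℤ × ℤ} {x : L} (h : x ∈ RR k y p d) : x = 0 ∨ ∃ a b : ℕ,
    d = ((a : ℤ), (b : ℤ)) ∧ x ∈ span k (range p) ^ a * span k (range y) ^ b := by
  by_cases hd : 0 ≤ d
  · obtain ⟨a, ha⟩ := Int.eq_ofNat_of_zero_le hd.1
    obtain ⟨b, hb⟩ := Int.eq_ofNat_of_zero_le hd.2
    obtain rfl : d = ((a : ℤ), (b : ℤ)) := Prod.ext ha hb
    exact Or.inr ⟨a, b, rfl, RR_nat k y p a b ▸ h⟩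
  · rw [RR, if_neg hd] at h
    exact Or.inl h

/-- The charts. -/
abbrev Ix : Type := {a : τ × ι // p a.1 * y a.2 ≠ 0}

theorem p_mem (j : τ) : p j ∈ RR k y p (1, 0) := by
  simpa using (RR_nat k y p 1 0).ge (by simpa using subset_span (mem_range_self j))

theorem y_mem (i : ι) : y i ∈ RR k y p (0, 1) := by
  simpa using (RR_nat k y p 0 1).ge (by simpa using subset_span (mem_range_self i))

variable {k y p} in
theorem RR_mul {d d' : ℤ × ℤ} {x x' : L} (h : x ∈ RR k y p d) (h' : x' ∈ RR k y p d') :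
    x * x' ∈ RR k y p (d + d') := by
  rcases RR_cases h with rfl | ⟨a, b, rfl, h⟩
  · simp
  rcases RR_cases h' with rfl | ⟨a', b', rfl, h'⟩
  · simp
  rw [Prod.mk_add_mk, ← Nat.cast_add, ← Nat.cast_add, RR_nat, pow_add, pow_add, mul_mul_mul_comm]
  exact Submodule.mul_mem_mul h h'

/-- The algebra generated by two linear systems. -/
def dat : Dat k L (Ix y p) where
  R := RR k y p
  z a := p a.1.1 * y a.1.2
  one := (RR_nat k y p 0 0).ge (by simp)
  mul := RR_mul
  zm a := RR_mul (p_mem k y p _) (y_mem k y p _)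
  z0 a := a.2
  gen d hd := by
    obtain ⟨a, ha⟩ := Int.eq_ofNat_of_zero_le (sub_nonneg.2 hd.1)
    obtain ⟨b, hb⟩ := Int.eq_ofNat_of_zero_le (sub_nonneg.2 hd.2)
    have h1 : d - 1 = ((a : ℤ), (b : ℤ)) := Prod.ext ha hb
    have h2 : d = (((a + 1 : ℕ) : ℤ), ((b + 1 : ℕ) : ℤ)) := by
      rw [← sub_add_cancel d 1, h1]
      rfl
    rw [h1, h2, RR_nat, RR_nat, pow_succ', pow_succ', mul_mul_mul_comm]
    refine mul_le_mul' ?_ le_rfl
    rw [span_mul_span, span_le]
    rintro _ ⟨_, ⟨j, rfl⟩, _, ⟨i, rfl⟩, rfl⟩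
    by_cases h : p j * y i = 0
    · simp [h]
    · exact subset_span ⟨⟨(j, i), h⟩, rfl⟩

theorem wf_dat [Finite ι] [Finite τ] : WellFounded fun J J' : Fam (dat k y p) => J' < J := by
  let G : Set (AddMonoidAlgebra L (ℤ × ℤ)) :=
    range (fun j => AddMonoidAlgebra.single (1, 0) (p j)) ∪
      range fun i => AddMonoidAlgebra.single (0, 1) (y i)
  let M : ℤ × ℤ → Submodule k L := fun d =>
    (Subalgebra.toSubmodule (Algebra.adjoin k G)).comap (AddMonoidAlgebra.lsingle d)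
  have hm : ∀ {U U' d d'}, U ≤ M d → U' ≤ M d' → U * U' ≤ M (d + d') := fun h h' =>
    Submodule.mul_le.2 fun x hx x' hx' => by
      change AddMonoidAlgebra.single _ (x * x') ∈ Algebra.adjoin k G
      rw [← AddMonoidAlgebra.single_mul_single]
      exact mul_mem (h hx) (h' hx')
  have hp : ∀ {U d}, U ≤ M d → ∀ n : ℕ, U ^ n ≤ M (n • d) := fun {U d} h n => by
    induction n with
    | zero =>
      rw [pow_zero, zero_nsmul, one_eq_span, span_le]
      rintro _ rfl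
      exact one_mem (Algebra.adjoin k G)
    | succ n ih =>
      rw [pow_succ, succ_nsmul]
      exact hm ih h
  refine wf _ G ((finite_range _).union (finite_range _)) ?_ fun d x hx => ?_
  · rintro _ (⟨j, rfl⟩ | ⟨i, rfl⟩)
    · exact coeff_single_mem (top (dat k y p)) (p_mem k y p j)
    · exact coeff_single_mem (top (dat k y p)) (y_mem k y p i)
  · rcases RR_cases hx with rfl | ⟨a, b, rfl, h⟩
    · simp
    · have h1 : span k (range p) ≤ M (1, 0) := span_le.2 (range_subset_iff.2 fun j =>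
        Algebra.subset_adjoin (Or.inl ⟨j, rfl⟩))
      have h2 : span k (range y) ≤ M (0, 1) := span_le.2 (range_subset_iff.2 fun i =>
        Algebra.subset_adjoin (Or.inr ⟨i, rfl⟩))
      have h3 : x ∈ M (a, b) := by simpa using hm (hp h1 a) (hp h2 b) h
      exact h3

variable {y p}

/-- The local generator of degree `d`. -/
def gg (a : Ix y p) (d : ℤ × ℤ) : L := p a.1.1 ^ d.1 * y a.1.2 ^ d.2

theorem Ix.p0 (a : Ix y p) : p a.1.1 ≠ 0 := left_ne_zero_of_mul a.2

theorem Ix.y0 (a : Ix y p) : y a.1.2 ≠ 0 := right_ne_zero_of_mul a.2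

theorem gg_ne (a : Ix y p) (d : ℤ × ℤ) : gg a d ≠ 0 :=
  mul_ne_zero (zpow_ne_zero _ a.p0) (zpow_ne_zero _ a.y0)

theorem gg_add (a : Ix y p) (d d' : ℤ × ℤ) : gg a (d + d') = gg a d * gg a d' := by
  simp only [gg, Prod.fst_add, Prod.snd_add, zpow_add₀ a.p0, zpow_add₀ a.y0]
  ring

theorem gg_zero (a : Ix y p) : gg a 0 = 1 := by simp [gg]

theorem gg_neg (a : Ix y p) (d : ℤ × ℤ) : gg a (-d) = (gg a d)⁻¹ :=
  eq_inv_of_mul_eq_one_left (by rw [← gg_add, neg_add_cancel, gg_zero])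

theorem gg_nat (a : Ix y p) (m n : ℕ) : gg a (m, n) = p a.1.1 ^ m * y a.1.2 ^ n := by simp [gg]

theorem gg_mem (a : Ix y p) (m n : ℕ) : gg a (m, n) ∈ RR k y p (m, n) := by
  rw [gg_nat, RR_nat]
  exact Submodule.mul_mem_mul (Submodule.pow_mem_pow _ (subset_span (mem_range_self _)) m)
    (Submodule.pow_mem_pow _ (subset_span (mem_range_self _)) n)

variable {k}

theorem den_eq {a : Ix y p} {u : L} {d : ℤ × ℤ} (h : Den (dat k y p) {a} u d) : u = gg a d := by
  induction h with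
  | one => exact (gg_zero a).symm
  | mul b hb _ ih =>
    obtain rfl : b = a := hb
    rw [gg_add, ← ih]
    simp [gg, dat]

variable (k) in
theorem gg_loc (a : Ix y p) (d : ℤ × ℤ) : gg a d ∈ loc (top (dat k y p)) {a} d := by
  have h := Den.pow (X := dat k y p) (mem_singleton a) (d.1.natAbs + d.2.natAbs)
  refine ⟨_, _, h, ?_⟩
  rw [den_eq h, ← gg_add]
  obtain ⟨m, hm⟩ := Int.eq_ofNat_of_zero_le
    (show 0 ≤ ((d.1.natAbs + d.2.natAbs : ℕ) : ℤ) + d.1 by omega)
  obtain ⟨n, hn⟩ := Int.eq_ofNat_of_zero_le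
    (show 0 ≤ ((d.1.natAbs + d.2.natAbs : ℕ) : ℤ) + d.2 by omega)
  rw [show (d.1.natAbs + d.2.natAbs) • (1 : ℤ × ℤ) + d = ((m : ℤ), (n : ℤ)) from
    Prod.ext (by simpa using hm) (by simpa using hn)]
  exact gg_mem k a m n

section val
variable {O : ValuationSubring L} (hO : ∀ c : k, algebraMap k L c ∈ O) {a : Ix y p}
  (h1 : ∀ j, O.valuation (p j) ≤ O.valuation (p a.1.1))
  (h2 : ∀ i, O.valuation (y i) ≤ O.valuation (y a.1.2))
include hO h1 h2

theorem val_le {d : ℤ × ℤ} {x : L} (hx : x ∈ RR k y p d) :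
    O.valuation x ≤ O.valuation (gg a d) := by
  rcases RR_cases hx with rfl | ⟨m, n, rfl, h⟩
  · simp
  · rw [gg_nat, map_mul, map_pow, map_pow]
    exact ball_mul (hO := hO) (ball_pow (span_le.2 (range_subset_iff.2 h1)) m)
      (ball_pow (span_le.2 (range_subset_iff.2 h2)) n) h

theorem val_le_loc {d : ℤ × ℤ} {x : L} (hx : x ∈ loc (top (dat k y p)) {a} d) :
    O.valuation x ≤ O.valuation (gg a d) := by
  obtain ⟨u, e, h3, h4⟩ := hx
  have h5 := val_le hO h1 h2 h4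
  rw [den_eq h3, gg_add, map_mul, map_mul] at h5
  exact le_of_mul_le_mul_left h5 (zero_lt_iff.2 ((map_ne_zero _).2 (gg_ne a e)))

/-- The centre of a valuation. -/
def cen : Fam (dat k y p) where
  J d :=
    { carrier := {x | x ∈ RR k y p d ∧ O.valuation x < O.valuation (gg a d)}
      zero_mem' := ⟨zero_mem _, by simpa using zero_lt_iff.2 ((map_ne_zero _).2 (gg_ne a d))⟩
      add_mem' := fun hx hy => ⟨add_mem hx.1 hy.1, O.valuation.map_add_lt hx.2 hy.2⟩
      smul_mem' := fun c x hx => ⟨smul_mem _ c hx.1, by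
        rw [Algebra.smul_def, map_mul]
        exact (mul_le_of_le_one_left' ((O.valuation_le_one_iff _).2 (hO c))).trans_lt hx.2⟩ }
  le _ _ hx := hx.1
  mul := fun {d d' x x'} hx hy => ⟨RR_mul hx hy.1, by
    rw [gg_add, map_mul, map_mul]
    exact mul_lt_mul_of_le_of_lt_of_nonneg_of_pos (val_le hO h1 h2 hx) hy.2 zero_le
      (zero_lt_iff.2 ((map_ne_zero _).2 (gg_ne a d)))⟩

theorem cen_pr : (cen hO h1 h2).Pr := fun d d' x x' hx hx' h => by
  by_contra hc
  rw [not_or] at hc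
  have h3 := h.2
  rw [gg_add, map_mul, map_mul] at h3
  exact h3.not_ge (mul_le_mul' (not_lt.1 fun h4 => hc.1 ⟨hx, h4⟩) (not_lt.1 fun h4 => hc.2 ⟨hx', h4⟩))

theorem cen_z : (dat k y p).z a ∉ (cen hO h1 h2).J 1 := fun h => by
  simpa [gg, dat] using h.2

theorem le_val {d : ℤ × ℤ} {x : L} (hx : x ∈ loc (top (dat k y p)) {a} d)
    (hx' : x ∉ loc (cen hO h1 h2) {a} d) : O.valuation (gg a d) ≤ O.valuation x := by
  obtain ⟨u, e, h3, h4⟩ := hx
  refine not_lt.1 fun h5 => hx' ⟨u, e, h3, h4, ?_⟩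
  rw [den_eq h3, gg_add, map_mul, map_mul]
  exact mul_lt_mul_of_pos_left h5 (zero_lt_iff.2 ((map_ne_zero _).2 (gg_ne a e)))

end val

theorem exists_dom [Finite ι] [Finite τ] (hy : y ≠ 0) (hp : p ≠ 0) (O : ValuationSubring L) :
    ∃ a : Ix y p, (∀ j, O.valuation (p j) ≤ O.valuation (p a.1.1)) ∧
      ∀ i, O.valuation (y i) ≤ O.valuation (y a.1.2) := by
  obtain ⟨i₀, hi⟩ := Function.ne_iff.1 hy
  obtain ⟨j₀, hj⟩ := Function.ne_iff.1 hp
  have : Nonempty ι := ⟨i₀⟩
  have : Nonempty τ := ⟨j₀⟩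
  obtain ⟨i, h1⟩ := Finite.exists_max fun i => O.valuation (y i)
  obtain ⟨j, h2⟩ := Finite.exists_max fun j => O.valuation (p j)
  refine ⟨⟨(j, i), mul_ne_zero (fun h => hj ?_) fun h => hi ?_⟩, h2, h1⟩
  · simpa [show p j = 0 from h] using h2 j₀
  · simpa [show y i = 0 from h] using h1 i₀

/-- Sections on all subvarieties give base point freeness. -/
theorem nef_of_pse [Finite ι] [Finite τ] (hy : y ≠ 0) (hp : p ≠ 0) (q m : ℕ) (hm : 0 < m)
    (hS : Pse (dat k y p) (2 * m) (2 * m * q - 1)) : ∃ u : ℕ, 0 < u ∧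
      span k (range p) ^ (u * m) * span k (range y) ^ u ≤
        cl (cl (span k (range p) ^ (u * m) * span k (range y) ^ u) /
          span k (range y) ^ (q * (u * m)) * span k (range y) ^ (q * (u * m))) := by
  have hm' : (0 : ℤ) < m := Int.natCast_pos.2 hm
  obtain ⟨u, hu, h⟩ := free (wf_dat k y p) (by positivity) hS
    (fun a => ⟨_, p_mem k y p _, _, y_mem k y p _, rfl⟩) (d₁ := (m, 1 - q * m)) hm'
    (by simp only; linarith)
  have e : (((0 : ℕ) : ℤ), ((q * (u * m) : ℕ) : ℤ)) + u • ((m : ℤ), 1 - (q : ℤ) * m) =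
      (((u * m : ℕ) : ℤ), (u : ℤ)) := Prod.ext (by simp) (by simp; ring)
  refine ⟨u, hu, fun w hw O hO => ?_⟩
  obtain ⟨a, h1, h2⟩ := exists_dom hy hp O
  obtain ⟨x, hx, hx'⟩ := h _ (cen_pr hO h1 h2) a (cen_z hO h1 h2)
  refine ⟨x * y a.1.2 ^ (q * (u * m)), Submodule.mul_mem_mul (mem_div_iff_forall_mul_mem.2
    fun v hv O' hO' => ?_) (Submodule.pow_mem_pow _ (subset_span (mem_range_self _)) _), ?_⟩
  · obtain ⟨b, h3, h4⟩ := exists_dom hy hp O'
    refine ⟨gg b ((u * m : ℕ), u), RR_nat k y p _ _ ▸ gg_mem k b _ _, ?_⟩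
    rw [← e, gg_add, map_mul, map_mul, mul_comm]
    exact mul_le_mul' (val_le hO' h3 h4 (by rw [RR_nat]; simpa using hv))
      (val_le_loc hO' h3 h4 (hx b))
  · refine (val_le hO h1 h2 (d := ((u * m : ℕ), u)) (RR_nat k y p _ _ ▸ hw)).trans ?_
    rw [← e, gg_add, map_mul, map_mul, mul_comm, gg_nat, pow_zero, one_mul]
    exact mul_le_mul' (le_val hO h1 h2 (hx a) hx') le_rfl

end Pool.Agent.Lib.NAK
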