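import Pool.Agent.Lib.NAK.Fam

/-! Vanishing theorems of Serre and Fujita for the first cohomology group. -/

open Submodule Filter Set

noncomputable section

namespace Pool.Agent.Lib.NAK

variable {k L A : Type} [Field k] [Field L] [Algebra k L] {X : Dat k L A}

/-- No torsion in degree `d`. -/
def H0 (J' J : Fam X) (d : ℤ × ℤ) : Prop :=
  ∀ x ∈ J.J d, (∀ a, x ∈ loc J' {a} d) → x ∈ J'.J d

/-- Every global section of degree `d` comes from the module. -/
def H1 (J' J : Fam X) (d : ℤ × ℤ) : Prop :=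
  ∀ b : A → L, (∀ a, b a ∈ loc J {a} d) → (∀ a a', b a' - b a ∈ loc J' {a, a'} d) →
    ∃ x ∈ J.J d, ∀ a, b a - x ∈ loc J' {a} d

/-- Every cocycle of degree `d` is a coboundary. -/
def H2 (J' J : Fam X) (d : ℤ × ℤ) : Prop :=
  ∀ c : A → A → L, (∀ a a', c a a' ∈ loc J {a, a'} d) →
    (∀ a a' a'', c a a' + c a' a'' - c a a'' ∈ loc J' {a, a', a''} d) →
    ∃ b : A → L, (∀ a, b a ∈ loc J {a} d) ∧ ∀ a a', c a a' - (b a' - b a) ∈ loc J' {a, a'} d

section
variable {J J' J₁ J₂ J₃ K P : Fam X} {d d₀ : ℤ × ℤ} {f : L}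

theorem s1 (a a' : A) : ({a} : Set A) ⊆ {a, a'} := by simp

theorem s2 (a a' : A) : ({a'} : Set A) ⊆ {a, a'} := by simp

theorem t12 (a a' a'' : A) : ({a, a'} : Set A) ⊆ {a, a', a''} := by
  intro x
  simp only [mem_insert_iff, mem_singleton_iff]
  tauto

theorem t23 (a a' a'' : A) : ({a', a''} : Set A) ⊆ {a, a', a''} := subset_insert _ _

theorem t13 (a a' a'' : A) : ({a, a''} : Set A) ⊆ {a, a', a''} := by
  intro x
  simp only [mem_insert_iff, mem_singleton_iff]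
  tauto

theorem H0.refl (J : Fam X) : H0 J J d := fun _ hx _ => hx

theorem H0.trans (h : J₁ ≤ J₂) (h1 : H0 J₁ J₂ d) (h2 : H0 J₂ J₃ d) : H0 J₁ J₃ d :=
  fun x hx hl => h1 x (h2 x hx fun a => loc_mono (hl a) h subset_rfl) hl

theorem H0.shift (hf : f ∈ X.R d₀) (h : H0 (col J f d₀) (top X) d) :
    H0 J (adj J hf) (d₀ + d) := fun x hx hl => by
  obtain ⟨b, hb, h1⟩ := (mem_adj hf).1 hx
  have h2 := h b hb fun a => loc_col (loc_of hb) (by simpa using sub_mem (hl a) (loc_of h1))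
  simpa using add_mem h1 h2.2

theorem H1.refl (J : Fam X) : H1 J J d := fun _ hb _ =>
  ⟨0, zero_mem _, fun a => by simpa using hb a⟩

theorem H1.trans (h : J₁ ≤ J₂) (h' : J₂ ≤ J₃) (h1 : H1 J₁ J₂ d) (h2 : H1 J₂ J₃ d) :
    H1 J₁ J₃ d := fun b hb hl => by
  obtain ⟨x, hx, h3⟩ := h2 b hb fun a a' => loc_mono (hl a a') h subset_rfl
  obtain ⟨x', hx', h4⟩ := h1 (fun a => b a - x) h3 fun a a' => by simpa using hl a a'
  exact ⟨x + x', add_mem hx (h' _ hx'), fun a => by simpa [sub_sub] using h4 a⟩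

theorem H1.shift (hf : f ∈ X.R d₀) (h : H1 (col J f d₀) (top X) d) :
    H1 J (adj J hf) (d₀ + d) := fun b hb hl => by
  choose b' h1 h2 using fun a => loc_adj hf (hb a)
  obtain ⟨x, hx, h3⟩ := h b' h1 fun a a' => loc_col
    (sub_mem (loc_mono (h1 a') le_rfl (s2 a a')) (loc_mono (h1 a) le_rfl (s1 a a'))) (by
      rw [show f * (b' a' - b' a) = b a' - b a - (b a' - f * b' a') + (b a - f * b' a) by ring]
      exact add_mem (sub_mem (hl a a') (loc_mono (h2 a') le_rfl (s2 a a')))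
        (loc_mono (h2 a) le_rfl (s1 a a')))
  refine ⟨f * x, (mem_adj hf).2 ⟨x, hx, by simp⟩, fun a => ?_⟩
  rw [show b a - f * x = b a - f * b' a + f * (b' a - x) by ring]
  exact add_mem (h2 a) (of_loc_col (h3 a))

theorem H2.refl (J : Fam X) : H2 J J d := fun _ hc _ =>
  ⟨0, fun _ => zero_mem _, fun a a' => by simpa using hc a a'⟩

theorem H2.trans (h : J₁ ≤ J₂) (h' : J₂ ≤ J₃) (h1 : H2 J₁ J₂ d) (h2 : H2 J₂ J₃ d) :
    H2 J₁ J₃ d := fun c hc hl => by
  obtain ⟨b, hb, h3⟩ := h2 c hc fun a a' a'' => loc_mono (hl a a' a'') h subset_rfl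
  obtain ⟨b', hb', h4⟩ := h1 (fun a a' => c a a' - (b a' - b a)) h3 fun a a' a'' => by
    rw [show c a a' - (b a' - b a) + (c a' a'' - (b a'' - b a')) - (c a a'' - (b a'' - b a)) =
      c a a' + c a' a'' - c a a'' by ring]
    exact hl a a' a''
  refine ⟨b + b', fun a => add_mem (hb a) (loc_mono (hb' a) h' subset_rfl), fun a a' => ?_⟩
  rw [show c a a' - ((b + b') a' - (b + b') a) = c a a' - (b a' - b a) - (b' a' - b' a) by
    simp only [Pi.add_apply]; ring]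
  exact h4 a a'

/-- Transfer along multiplication by a section of a line bundle. -/
theorem H2.mor (s : A → L) (h1 : ∀ a, s a ∈ loc J {a} d₀)
    (h2 : ∀ a a', s a' - s a ∈ loc J' {a, a'} d₀)
    (h3 : ∀ a a', ∀ x ∈ loc J {a, a'} (d₀ + d), ∃ x' ∈ loc (top X) {a, a'} d,
      x - s a * x' ∈ loc J' {a, a'} (d₀ + d))
    (h4 : ∀ a S, a ∈ S → ∀ x ∈ loc (top X) S d, s a * x ∈ loc J' S (d₀ + d) → x ∈ loc K S d)
    (h5 : ∀ a a', ∀ x ∈ loc K {a, a'} d, s a * x ∈ loc J' {a, a'} (d₀ + d))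
    (h : H2 K (top X) d) : H2 J' J (d₀ + d) := fun c hc hl => by
  choose c' h6 h7 using fun a a' => h3 a a' _ (hc a a')
  obtain ⟨b, hb, h8⟩ := h c' h6 fun a a' a'' => h4 a _ (mem_insert _ _) _
    (sub_mem (add_mem (loc_mono (h6 a a') le_rfl (t12 _ _ _))
      (loc_mono (h6 a' a'') le_rfl (t23 _ _ _))) (loc_mono (h6 a a'') le_rfl (t13 _ _ _))) (by
      rw [show s a * (c' a a' + c' a' a'' - c' a a'') = c a a' + c a' a'' - c a a'' -
        (c a a' - s a * c' a a') - (c a' a'' - s a' * c' a' a'') + (c a a'' - s a * c' a a'') -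
        (s a' - s a) * c' a' a'' by ring]
      exact sub_mem (add_mem (sub_mem (sub_mem (hl a a' a'')
        (loc_mono (h7 a a') le_rfl (t12 _ _ _))) (loc_mono (h7 a' a'') le_rfl (t23 _ _ _)))
        (loc_mono (h7 a a'') le_rfl (t13 _ _ _)))
        (loc_mul' (loc_mono (h2 a a') le_rfl (t12 _ _ _))
          (loc_mono (h6 a' a'') le_rfl (t23 _ _ _)) rfl))
  refine ⟨fun a => s a * b a, fun a => loc_mul' (h1 a) (hb a) rfl, fun a a' => ?_⟩
  rw [show c a a' - (s a' * b a' - s a * b a) = c a a' - s a * c' a a' +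
    s a * (c' a a' - (b a' - b a)) - (s a' - s a) * b a' by ring]
  exact sub_mem (add_mem (h7 a a') (h5 a a' _ (h8 a a')))
    (loc_mul' (h2 a a') (loc_mono (hb a') le_rfl (s2 _ _)) rfl)

theorem H2.shift (hf : f ∈ X.R d₀) (h : H2 (col J f d₀) (top X) d) :
    H2 J (adj J hf) (d₀ + d) :=
  H2.mor (fun _ => f) (fun _ => loc_of (self_mem_adj hf))
    (fun _ _ => by simp) (fun _ _ _ hx => loc_adj hf hx) (fun _ _ _ _ hx h => loc_col hx h)
    (fun _ _ _ hx => of_loc_col hx) h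

theorem H1.triv (h : ∀ a, X.z a ∈ P.J 1) : H1 P (top X) d := fun _ hb _ =>
  ⟨0, zero_mem _, fun a => by simpa using loc_of_z (h a) (mem_singleton a) (hb a)⟩

theorem H2.triv (h : ∀ a, X.z a ∈ P.J 1) : H2 P (top X) d := fun _ hc _ =>
  ⟨0, fun _ => zero_mem _, fun a a' => by simpa using loc_of_z (h a) (mem_insert _ _) (hc a a')⟩

theorem H0.prime (hP : P.Pr) (hd : 1 ≤ d) : H0 P (top X) d := fun x hx hl => by
  by_cases h : ∀ a, X.z a ∈ P.J 1
  · refine Submodule.mul_le.2 (fun u hu v hv => ?_) (X.gen d hd hx)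
    have h1 : u ∈ P.J 1 := span_le.2 (range_subset_iff.2 h) hu
    rw [mul_comm]
    exact P.mul' hv h1 (by ring)
  · obtain ⟨a, ha⟩ := not_forall.1 h
    exact hP.den ha hx (hl a)

theorem H1.prime [Finite A] (hP : P.Pr) {a₀ : A} (ha : X.z a₀ ∉ P.J 1)
    (h : ∀ N : ℕ, H0 (adj P (X.zm a₀)) (top X) (1 + (N • 1 + d))) : H1 P (top X) d :=
  fun b hb hl => by
  have key : ∀ N : ℕ, (∃ x ∈ X.R (N • 1 + d), ∀ a, X.z a₀ ^ N * b a - x ∈ loc P {a} (N • 1 + d)) →
      ∃ x ∈ X.R d, ∀ a, b a - x ∈ loc P {a} d := by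
    intro N
    induction N with
    | zero => simp
    | succ N ih =>
      rintro ⟨x, hx, h1⟩
      rw [succ_nsmul', add_assoc] at hx h1
      have h2 : ∀ a, X.z a₀ ^ N * b a ∈ loc (top X) {a} (N • 1 + d) := fun a =>
        loc_mul (loc_of (X.pow (X.zm a₀) N)) (hb a) rfl
      obtain ⟨x', hx', h3⟩ := (mem_adj (X.zm a₀)).1 (h N x hx fun a => by
        rw [show x = X.z a₀ * (X.z a₀ ^ N * b a) - (X.z a₀ ^ (N + 1) * b a - x) by ring]
        exact sub_mem (loc_mul' (loc_of (self_mem_adj _)) (h2 a) rfl)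
          (loc_mono (h1 a) (le_adj _) subset_rfl))
      refine ih ⟨x', hx', fun a => hP.cancel (X.zm a₀) ha (sub_mem (h2 a) (loc_of hx')) ?_⟩
      rw [show X.z a₀ * (X.z a₀ ^ N * b a - x') =
        X.z a₀ ^ (N + 1) * b a - x + (x - X.z a₀ * x') by ring]
      exact add_mem (h1 a) (loc_of h3)
  obtain ⟨N, h1, h2⟩ := ((loc_single (hb a₀)).and
    (eventually_all.2 fun a => loc_insert (hl a₀ a))).exists
  exact key N ⟨_, h1, fun a => by simpa [mul_sub] using h2 a⟩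

theorem H2.prime [Finite A] (hP : P.Pr) {a₀ : A} (ha : X.z a₀ ∉ P.J 1)
    (h : ∀ N : ℕ, H1 (adj P (X.zm a₀)) (top X) (1 + (N • 1 + d))) : H2 P (top X) d :=
  fun c hc hl => by
  have key : ∀ N : ℕ, (∃ b : A → L, (∀ a, b a ∈ loc (top X) {a} (N • 1 + d)) ∧
      ∀ a a', X.z a₀ ^ N * c a a' - (b a' - b a) ∈ loc P {a, a'} (N • 1 + d)) →
      ∃ b : A → L, (∀ a, b a ∈ loc (top X) {a} d) ∧
        ∀ a a', c a a' - (b a' - b a) ∈ loc P {a, a'} d := by
    intro N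
    induction N with
    | zero => simp
    | succ N ih =>
      rintro ⟨b, hb, h1⟩
      rw [succ_nsmul', add_assoc] at hb h1
      have h2 : ∀ a a', X.z a₀ ^ N * c a a' ∈ loc (top X) {a, a'} (N • 1 + d) := fun a a' =>
        loc_mul (loc_of (X.pow (X.zm a₀) N)) (hc a a') rfl
      obtain ⟨x, hx, h3⟩ := h N b hb fun a a' => by
        rw [show b a' - b a = X.z a₀ * (X.z a₀ ^ N * c a a') -
          (X.z a₀ ^ (N + 1) * c a a' - (b a' - b a)) by ring]
        exact sub_mem (loc_mul' (loc_of (self_mem_adj _)) (h2 a a') rfl)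
          (loc_mono (h1 a a') (le_adj _) subset_rfl)
      choose b' h4 h5 using fun a => loc_adj _ (h3 a)
      refine ih ⟨b', h4, fun a a' => hP.cancel (X.zm a₀) ha (sub_mem (h2 a a')
        (sub_mem (loc_mono (h4 a') le_rfl (s2 _ _)) (loc_mono (h4 a) le_rfl (s1 _ _)))) ?_⟩
      rw [show X.z a₀ * (X.z a₀ ^ N * c a a' - (b' a' - b' a)) =
        X.z a₀ ^ (N + 1) * c a a' - (b a' - b a) + (b a' - x - X.z a₀ * b' a') -
          (b a - x - X.z a₀ * b' a) by ring]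
      exact sub_mem (add_mem (h1 a a') (loc_mono (h5 a') le_rfl (s2 _ _)))
        (loc_mono (h5 a) le_rfl (s1 _ _))
  obtain ⟨N, h1, h2⟩ := ((eventually_all.2 fun a => loc_insert (hc a₀ a)).and
    (eventually_all.2 fun a => eventually_all.2 fun a' => loc_insert (hl a₀ a a'))).exists
  refine key N ⟨fun a => X.z a₀ ^ N * c a₀ a, h1, fun a a' => ?_⟩
  rw [show X.z a₀ ^ N * c a a' - (X.z a₀ ^ N * c a₀ a' - X.z a₀ ^ N * c a₀ a) =
    X.z a₀ ^ N * (c a₀ a + c a a' - c a₀ a') by ring]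
  exact h2 a a'

end

theorem ev_shift {Q : ℤ × ℤ → Prop} (d₀ : ℤ × ℤ) (h : ∀ᶠ d in atTop, Q (d₀ + d)) :
    ∀ᶠ d in atTop, Q d := by
  obtain ⟨c, hc⟩ := eventually_atTop.1 h
  refine eventually_atTop.2 ⟨d₀ + c, fun d hd => ?_⟩
  simpa using hc (d - d₀) (le_sub_iff_add_le'.2 hd)

theorem ev_up {Q : ℤ × ℤ → Prop} (h : ∀ᶠ d in atTop, Q d) :
    ∀ᶠ d in atTop, ∀ N : ℕ, Q (1 + (N • 1 + d)) := by
  obtain ⟨c, hc⟩ := eventually_atTop.1 h
  refine eventually_atTop.2 ⟨c, fun d hd N => hc _ (hd.trans ?_)⟩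
  rw [← add_assoc]
  exact le_add_of_nonneg_left (by positivity)

variable (hN : WellFounded fun J J' : Fam X => J' < J)
include hN

theorem serre0 (J' J : Fam X) (h : J' ≤ J) : ∀ᶠ d in atTop, H0 J' J d :=
  dev hN (Φ := fun J' J => ∀ᶠ d in atTop, H0 J' J d)
    (fun J => Eventually.of_forall fun _ => H0.refl J)
    (fun _ _ _ h _ h1 h2 => (h1.and h2).mono fun _ h3 => H0.trans h h3.1 h3.2)
    (fun _ _ d₀ hf h => ev_shift d₀ (h.mono fun _ => H0.shift hf))
    (fun _ hP _ => (eventually_ge_atTop 1).mono fun _ => H0.prime hP) J' J h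

variable [Finite A]

theorem serre1 (J' J : Fam X) (h : J' ≤ J) : ∀ᶠ d in atTop, H1 J' J d :=
  dev hN (Φ := fun J' J => ∀ᶠ d in atTop, H1 J' J d)
    (fun J => Eventually.of_forall fun _ => H1.refl J)
    (fun _ _ _ h h' h1 h2 => (h1.and h2).mono fun _ h3 => H1.trans h h' h3.1 h3.2)
    (fun _ _ d₀ hf h => ev_shift d₀ (h.mono fun _ => H1.shift hf))
    (fun P hP _ => by
      by_cases h : ∀ a, X.z a ∈ P.J 1
      · exact Eventually.of_forall fun _ => H1.triv h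
      · obtain ⟨a, ha⟩ := not_forall.1 h
        exact (ev_up (serre0 hN _ _ (le_top' _))).mono fun _ => H1.prime hP ha) J' J h

theorem serre2 (J' J : Fam X) (h : J' ≤ J) : ∀ᶠ d in atTop, H2 J' J d :=
  dev hN (Φ := fun J' J => ∀ᶠ d in atTop, H2 J' J d)
    (fun J => Eventually.of_forall fun _ => H2.refl J)
    (fun _ _ _ h h' h1 h2 => (h1.and h2).mono fun _ h3 => H2.trans h h' h3.1 h3.2)
    (fun _ _ d₀ hf h => ev_shift d₀ (h.mono fun _ => H2.shift hf))
    (fun P hP _ => by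
      by_cases h : ∀ a, X.z a ∈ P.J 1
      · exact Eventually.of_forall fun _ => H2.triv h
      · obtain ⟨a, ha⟩ := not_forall.1 h
        exact (ev_up (serre1 hN _ _ (le_top' _))).mono fun _ => H2.prime hP ha) J' J h

end Pool.Agent.Lib.NAK
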