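import Mathlib

/-! Embeddings of fields into large algebraically closed fields. -/

open Cardinal Set

noncomputable section

namespace Pool.Agent.Lib.NAK

theorem exists_hom (R K L : Type) [Field R] [Field K] [Field L] [Algebra R K] [Algebra R L]
    [IsAlgClosed L] (hR : #R ≤ ℵ₀) (hL : ℵ₀ < #L) (h : #K ≤ #L) : Nonempty (K →ₐ[R] L) := by
  obtain ⟨s, hs⟩ := exists_isTranscendenceBasis R K
  obtain ⟨t, ht⟩ := exists_isTranscendenceBasis R L
  obtain ⟨e⟩ : Nonempty (s ↪ t) := (Cardinal.le_def _ _).1 ((mk_set_le s).trans (h.trans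
    (IsAlgClosed.cardinal_eq_cardinal_transcendence_basis_of_aleph0_lt' _ ht hR hL).le))
  let A := Algebra.adjoin R (range ((↑) : s → K))
  let f : A →ₐ[R] L := (MvPolynomial.aeval fun i => (e i : L)).comp hs.1.aevalEquiv.symm.toAlgHom
  have hf : Function.Injective f := fun _ _ h => hs.1.aevalEquiv.symm.injective
    (algebraicIndependent_iff_injective_aeval.1 (ht.1.comp e e.injective) h)
  let : Algebra A L := f.toRingHom.toAlgebra
  have : FaithfulSMul A L := (faithfulSMul_iff_algebraMap_injective A L).2 hf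
  have := hs.isAlgebraic
  have : IsScalarTower R A L := .of_algebraMap_eq fun c => (f.commutes c).symm
  exact ⟨(IsAlgClosed.lift (R := A) (S := K) (M := L)).restrictScalars R⟩

/-- An embedding of the complex numbers can be changed off a countable set so that its image
contains a given countable set. -/
theorem exists_twist {κ : Type} [Field κ] [IsAlgClosed κ] (c₀ : ℂ →+* κ) {k₀ : Set ℂ} {s : Set κ}
    (hk : k₀.Countable) (hs : s.Countable) :
    ∃ φ : ℂ →+* κ, (∀ c ∈ k₀, φ c = c₀ c) ∧ s ⊆ range φ := by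
  let R := Subfield.closure k₀
  have hR : #R ≤ ℵ₀ := (Subfield.cardinalMk_closure_le_max k₀).trans
    (max_le (le_aleph0_iff_set_countable.2 hk) le_rfl)
  have hC : ℵ₀ < #ℂ := by
    rw [mk_complex]
    exact aleph0_lt_continuum
  let : Algebra R κ := (c₀.comp R.subtype).toAlgebra
  let K := IntermediateField.adjoin R s
  have hK : #K ≤ ℵ₀ := (IntermediateField.cardinalMk_adjoin_le R s).trans
    (max_le (max_le hR (le_aleph0_iff_set_countable.2 hs)) le_rfl)
  obtain ⟨j⟩ := exists_hom R K ℂ hR hC (hK.trans hC.le)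
  let : Algebra K ℂ := j.toRingHom.toAlgebra
  have h1 : #ℂ ≤ #κ := mk_le_of_injective c₀.injective
  obtain ⟨φ⟩ := exists_hom K ℂ κ hK (hC.trans_le h1) h1
  refine ⟨φ.toRingHom, fun c hc => ?_, fun x hx =>
    ⟨_, φ.commutes ⟨x, IntermediateField.subset_adjoin R s hx⟩⟩⟩
  have h2 := φ.commutes (algebraMap R K ⟨c, Subfield.subset_closure hc⟩)
  rwa [show algebraMap K ℂ (algebraMap R K ⟨c, Subfield.subset_closure hc⟩) = c from
    j.commutes _] at h2

/-- Countably many elements of a field generated over `κ` involve countably many constants. -/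
theorem exists_consts {κ F : Type} [Field κ] [Field F] [Algebra κ F] (u : Set F) {V : Set F}
    (hV : V.Countable) (h : V ⊆ IntermediateField.adjoin κ u) : ∃ s : Set κ, s.Countable ∧
      ∀ K : Subfield F, (∀ c ∈ s, algebraMap κ F c ∈ K) → u ⊆ K → V ⊆ K := by
  have h1 : ∀ v ∈ IntermediateField.adjoin κ u, ∃ s : Set κ, s.Countable ∧
      ∀ K : Subfield F, (∀ c ∈ s, algebraMap κ F c ∈ K) → u ⊆ K → v ∈ K := fun v hv => by
    induction hv using IntermediateField.adjoin_induction with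
    | mem x hx => exact ⟨∅, countable_empty, fun K _ h => h hx⟩
    | algebraMap c => exact ⟨{c}, countable_singleton c, fun K h _ => h c rfl⟩
    | add x y _ _ hx hy =>
      obtain ⟨s, h1, h2⟩ := hx
      obtain ⟨s', h3, h4⟩ := hy
      exact ⟨s ∪ s', h1.union h3, fun K h h' => add_mem (h2 K (fun c hc => h c (.inl hc)) h')
        (h4 K (fun c hc => h c (.inr hc)) h')⟩
    | inv x _ hx =>
      obtain ⟨s, h1, h2⟩ := hx
      exact ⟨s, h1, fun K h h' => inv_mem (h2 K h h')⟩
    | mul x y _ _ hx hy =>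
      obtain ⟨s, h1, h2⟩ := hx
      obtain ⟨s', h3, h4⟩ := hy
      exact ⟨s ∪ s', h1.union h3, fun K h h' => mul_mem (h2 K (fun c hc => h c (.inl hc)) h')
        (h4 K (fun c hc => h c (.inr hc)) h')⟩
  choose! s h2 h3 using h1
  exact ⟨⋃ v ∈ V, s v, hV.biUnion fun v hv => h2 v (h hv), fun K h4 h5 v hv =>
    h3 v (h hv) K (fun c hc => h4 c (mem_biUnion hv hc)) h5⟩

/-- A relation with coefficients in a set fixed by a twisted embedding. -/
theorem map_aeval_of {σ E F : Type} [Field E] [Field F] [Algebra ℂ E] [Algebra ℂ F] (ψ : E →+* F)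
    (b : σ → E) (t : MvPolynomial σ ℂ)
    (h : ∀ c ∈ t.coeffs, ψ (algebraMap ℂ E c) = algebraMap ℂ F c) :
    ψ (MvPolynomial.aeval b t) = MvPolynomial.aeval (fun l => ψ (b l)) t := by
  simp only [MvPolynomial.aeval_def, MvPolynomial.eval₂_eq, map_sum, map_mul, map_prod, map_pow]
  exact Finset.sum_congr rfl fun d hd => by rw [h _ (MvPolynomial.coeff_mem_coeffs d
    (MvPolynomial.mem_support_iff.1 hd))]

/-- A point of a finitely generated algebra survives a twist of the constants. -/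
theorem exists_lift {L σ : Type} [Field L] [Algebra ℂ L] [Finite σ] (a : σ → L)
    (T : Set (MvPolynomial σ ℂ)) (hT : T.Countable) : ∃ k₀ : Set ℂ, k₀.Countable ∧
      ∀ (E F : Type) [Field E] [Field F] [Algebra ℂ E] [Algebra ℂ F] (ψ : E →+* F) (b : σ → E),
        (∀ c ∈ k₀, ψ (algebraMap ℂ E c) = algebraMap ℂ F c) →
        (∀ t : MvPolynomial σ ℂ, MvPolynomial.aeval a t = 0 →
          MvPolynomial.aeval (fun l => ψ (b l)) t = 0) →
        (∃ χ : Algebra.adjoin ℂ (range a) →ₐ[ℂ] E,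
          ∀ l, χ ⟨a l, Algebra.subset_adjoin ⟨l, rfl⟩⟩ = b l) ∧
        ∀ t ∈ T, ψ (MvPolynomial.aeval b t) = MvPolynomial.aeval (fun l => ψ (b l)) t := by
  obtain ⟨S, hS⟩ := IsNoetherian.noetherian (RingHom.ker (MvPolynomial.aeval (R := ℂ) a).toRingHom)
  refine ⟨⋃ t ∈ T ∪ S, t.coeffs, (hT.union S.countable_toSet).biUnion fun t _ =>
    t.coeffs.countable_toSet, fun E F _ _ _ _ ψ b h1 h2 => ?_⟩
  have h3 : ∀ t ∈ T ∪ S, ψ (MvPolynomial.aeval b t) = MvPolynomial.aeval (fun l => ψ (b l)) t :=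
    fun t ht => map_aeval_of ψ b t fun c hc => h1 c (mem_biUnion ht hc)
  refine ⟨?_, fun t ht => h3 t (.inl ht)⟩
  let f : MvPolynomial σ ℂ →ₐ[ℂ] Algebra.adjoin ℂ (range a) :=
    MvPolynomial.aeval fun l => ⟨a l, Algebra.subset_adjoin ⟨l, rfl⟩⟩
  have hf : ∀ t, (f t : L) = MvPolynomial.aeval a t := fun t =>
    MvPolynomial.comp_aeval_apply _ (Algebra.adjoin ℂ (range a)).val t
  have h4 : Function.Surjective f := fun x => by
    obtain ⟨t, ht⟩ := (Algebra.adjoin_range_eq_range_aeval ℂ a).le x.2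
    exact ⟨t, Subtype.ext ((hf t).trans ht)⟩
  have h5 : RingHom.ker f.toRingHom ≤ RingHom.ker (MvPolynomial.aeval (R := ℂ) b).toRingHom :=
    fun t ht => by
      have h6 : t ∈ RingHom.ker (MvPolynomial.aeval (R := ℂ) a).toRingHom :=
        (hf t).symm.trans (congrArg Subtype.val ht)
      rw [← hS] at h6
      refine Submodule.span_le.2 (fun r hr => ψ.injective ?_) h6
      exact ((h3 r (.inr hr)).trans (h2 r (hS.le (Submodule.subset_span hr)))).trans
        (map_zero ψ).symm
  refine ⟨AlgHom.liftOfSurjective f h4 _ h5, fun l => ?_⟩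
  have h6 := AlgHom.liftOfSurjective_apply f h4 _ h5 (MvPolynomial.X l)
  rwa [MvPolynomial.aeval_X, MvPolynomial.aeval_X] at h6

end Pool.Agent.Lib.NAK
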