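import Pool.Agent.Lib.NAK.Trf
import Pool.Agent.Lib.A35.B_FRG

/-! Bigness of the canonical class passes to algebraic extensions of the function field. -/

open Set Submodule Module

noncomputable section

namespace Pool.Agent.Lib.NAK

open Pool.Agent.Lib.MP_7fcda1_ag Pool.Agent.Lib.UR Pool.Agent.Lib.A35 Pool.Agent.Lib.GD
  Pool.Agent.Lib.MP_e06174_ag

variable {L L' ι : Type} [Field L] [Algebra ℂ L] [Field L'] [Algebra ℂ L']

theorem map_mem_cl' (φ : L →ₐ[ℂ] L') {U : Submodule ℂ L} {z : L} (h : z ∈ cl U) :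
    φ z ∈ cl (U.map φ.toLinearMap) := fun O hO => by
  obtain ⟨u, hu, h1⟩ := h (O.comap φ.toRingHom) fun c => by
    change φ _ ∈ O
    rw [φ.commutes]
    exact hO c
  obtain ⟨c, hc⟩ := (ValuationSubring.valuation_le_iff _ _ _).1 h1
  exact ⟨_, ⟨u, hu, rfl⟩, (ValuationSubring.valuation_le_iff _ _ _).2
    ⟨⟨φ c, c.2⟩, (map_mul φ _ _).symm.trans (congrArg φ hc)⟩⟩

theorem kodaira_ext [Fintype ι] {y : ι → L} {n : ℕ} {x : Fin n → L}
    {d : Fin n → Derivation ℂ L L} (φ : L →ₐ[ℂ] L') (hx : IsTranscendenceBasis ℂ x)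
    (hx' : IsTranscendenceBasis ℂ fun a => φ (x a))
    (hd : ∀ a b, d a (x b) = if a = b then 1 else 0) (hy : y ≠ 0)
    (h : Big (n + 1) y (gaussT d y) n) :
    ((n : ℕ∞) : WithBot ℕ∞) ≤ MP_9a2ae6_ag.kodaira ℂ L' n := by
  obtain ⟨d₀, hd₀⟩ := exists_dual hx
  obtain rfl : d = d₀ := by
    funext a
    ext f
    simpa [hd] using hd₀.chain (AlgHom.id ℂ L) (d a) f
  obtain ⟨d', hd'⟩ := exists_dual hx'
  have h1 : ∀ a f, d' a (φ f) = φ (d a f) := fun a f => by
    simpa [hd'.dual] using hd₀.chain φ (d' a) f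
  have h2 : gaussT d' (fun j => φ (y j)) = fun S => φ (gaussT d y S) := by
    refine Eq.trans (congrArg pl (funext fun a => ?_)) (pl_map φ.toRingHom _)
    refine Fin.cases rfl (fun a => funext fun j => h1 a _) a
  have h3 : ∀ {σ : Type} (w : σ → L), span ℂ (range fun j => φ (w j)) =
      (span ℂ (range w)).map φ.toLinearMap := fun w => by
    rw [map_span, ← range_comp]
    rfl
  have hy' : (fun j => φ (y j)) ≠ 0 := fun h => hy (funext fun j =>
    (map_eq_zero φ).1 (congrFun h j))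
  have h4 : ∀ {m : ℕ} (z : Sec (n + 1) y (gaussT d y) m 0), φ z ∈ Mix.Sec
      (span ℂ (range (gaussT d' fun j => φ (y j)))) (span ℂ (range fun j => φ (y j)))
      (n + 1) m 0 := fun z => by
    rw [h2, h3, h3, Mix.Sec, ← Submodule.map_pow, ← Submodule.map_pow, ← Submodule.map_pow,
      ← Submodule.map_mul]
    refine mem_div_iff_forall_mul_mem.2 ?_
    rintro _ ⟨v, hv, rfl⟩
    exact (map_mul φ _ _).symm ▸ map_mem_cl' φ (mem_div_iff_forall_mul_mem.1 z.2 v hv)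
  obtain ⟨C, h⟩ := h
  refine le_iSup₂_of_le (f := fun (κ : ℕ) (_ : ∃ C : ℕ, ∃ᶠ m : ℕ in Filter.atTop,
    (m : Cardinal) ^ κ ≤ C * MP_9a2ae6_ag.plurigenus ℂ L' n {1} m) => ((κ : ℕ∞) : WithBot ℕ∞))
    n ⟨C, h.mono fun m hm => ?_⟩ le_rfl
  let f : Sec (n + 1) y (gaussT d y) m 0 →ₗ[ℂ] MP_9a2ae6_ag.sections ℂ L' n m {1} :=
    { toFun := fun z => ⟨form (fun a => φ (x a)) _ (φ z), Mix.form_mem hd' hy' (h4 z)⟩
      map_add' := fun a b => Subtype.ext (by simp [form, add_smul])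
      map_smul' := fun a b => Subtype.ext (by simp [form]) }
  have h5 : Function.Injective f := fun a b hab =>
    Subtype.ext (φ.injective (form_injective hx' _ (congrArg Subtype.val hab)))
  have h6 := (Cardinal.natCast_toNat_le _).trans (f.rank_le_of_injective h5)
  rw [MP_9a2ae6_ag.plurigenus_eq]
  exact le_trans (by exact_mod_cast hm) (mul_le_mul_right h6 _)

/-- The theorem for every variety that is generically finite over the model. -/
theorem kin_ext (hMAIN : St_MAIN) {e : ℕ} (X : Mod₀ L (e + 1)) {N : ℕ}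
    {g : ℕ → MvPolynomial (Fin (X.N + 1)) ℂ} (hg : ∀ m, MvPolynomial.aeval X.y (g m) ≠ 0)
    (h' : NefC (e + 2) X.y X.G) (h : HypC (e + 2) X.y X.G N g) [Algebra L L']
    [IsScalarTower ℂ L L'] [Algebra.IsAlgebraic L L'] :
    (((e + 1 : ℕ) : ℕ∞) : WithBot ℕ∞) ≤ MP_9a2ae6_ag.kodaira ℂ L' (e + 1) := by
  have hE : Eff (e + 2) X.y X.G (e + 1 + 1) (gaussT X.d X.y) 1 1 :=
    ⟨1, one_ne_zero, by rw [← Submodule.one_eq_span, one_mul]; exact le_cl _⟩
  exact kodaira_ext (IsScalarTower.toAlgHom ℂ L L') X.tb (X.tb.algebraMap_comp (A := L')) X.dual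
    X.y_ne' (hMAIN L e
      { toMod₀ := X, τ := _, p := X.G, q := e + 2, c := 1, r := 1, rpos := one_pos
        free := st_FRG L _ X, nef := nef_of_cnef X.y_ne' X.G_ne (cnef_of h'), eff := hE } N
      (hyp_of X.y0 X.gen X.G_ne hg h' h))

end Pool.Agent.Lib.NAK
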