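import Mathlib

/-! Bigraded families of subspaces of a field, their localisations, and the first three local
cohomology conditions. -/

open Submodule Filter Set

noncomputable section

namespace Pool.Agent.Lib.NAK

/-- A bigraded algebra inside a field, with elements `z` of degree `(1, 1)`. -/
structure Dat (k L A : Type) [Field k] [Field L] [Algebra k L] where
  R : ℤ × ℤ → Submodule k L
  z : A → L
  one : (1 : L) ∈ R 0
  mul : ∀ {d d' : ℤ × ℤ} {x y : L}, x ∈ R d → y ∈ R d' → x * y ∈ R (d + d')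
  zm : ∀ a, z a ∈ R 1
  z0 : ∀ a, z a ≠ 0
  gen : ∀ d, 1 ≤ d → R d ≤ span k (range z) * R (d - 1)

variable {k L A : Type} [Field k] [Field L] [Algebra k L]

/-- A homogeneous ideal. -/
@[ext] structure Fam (X : Dat k L A) where
  J : ℤ × ℤ → Submodule k L
  le : ∀ d, J d ≤ X.R d
  mul : ∀ {d d' : ℤ × ℤ} {x y : L}, x ∈ X.R d → y ∈ J d' → x * y ∈ J (d + d')

variable {X : Dat k L A}

instance : PartialOrder (Fam X) := PartialOrder.lift Fam.J fun _ _ h => Fam.ext h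

theorem Fam.le_def {J J' : Fam X} : J ≤ J' ↔ ∀ d, J.J d ≤ J'.J d := Iff.rfl

theorem Fam.mul' (J : Fam X) {d d' d'' : ℤ × ℤ} {x y : L} (hx : x ∈ X.R d) (hy : y ∈ J.J d')
    (h : d + d' = d'') : x * y ∈ J.J d'' := h ▸ J.mul hx hy

variable (X) in
/-- The unit ideal. -/
def top : Fam X := ⟨X.R, fun _ => le_rfl, X.mul⟩

variable (X) in
/-- The zero ideal. -/
def bot : Fam X := ⟨fun _ => ⊥, fun _ => bot_le, fun _ hy => by
  rw [Submodule.mem_bot] at hy ⊢
  rw [hy, mul_zero]⟩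

theorem le_top' (J : Fam X) : J ≤ top X := J.le

theorem bot_le' (J : Fam X) : bot X ≤ J := fun _ => bot_le

theorem Dat.pow (X : Dat k L A) {d : ℤ × ℤ} {x : L} (h : x ∈ X.R d) (N : ℕ) :
    x ^ N ∈ X.R (N • d) := by
  induction N with
  | zero => simpa using X.one
  | succ N ih =>
    rw [pow_succ, succ_nsmul]
    exact X.mul ih h

/-- Products of the elements `z a`, `a` in `S`. -/
inductive Den (X : Dat k L A) (S : Set A) : L → ℤ × ℤ → Prop
  | one : Den X S 1 0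
  | mul {u d} (a : A) : a ∈ S → Den X S u d → Den X S (X.z a * u) (1 + d)

namespace Den
variable {S S' : Set A} {u u' : L} {d d' : ℤ × ℤ}

theorem mem (h : Den X S u d) : u ∈ X.R d := by
  induction h with
  | one => exact X.one
  | mul a _ _ ih => exact X.mul (X.zm a) ih

theorem ne (h : Den X S u d) : u ≠ 0 := by
  induction h with
  | one => exact one_ne_zero
  | mul a _ _ ih => exact mul_ne_zero (X.z0 a) ih

theorem mono (h : Den X S u d) (hS : S ⊆ S') : Den X S' u d := by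
  induction h with
  | one => exact Den.one
  | mul a ha _ ih => exact Den.mul a (hS ha) ih

theorem mul' (h : Den X S u d) (h' : Den X S u' d') : Den X S (u * u') (d + d') := by
  induction h with
  | one => simpa using h'
  | mul a ha _ ih =>
    rw [mul_assoc, add_assoc]
    exact Den.mul a ha ih

theorem pow {a : A} (ha : a ∈ S) (N : ℕ) : Den X S (X.z a ^ N) (N • 1) := by
  induction N with
  | zero => simpa using Den.one
  | succ N ih =>
    rw [pow_succ', succ_nsmul']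
    exact Den.mul a ha ih

theorem split {a : A} (h : Den X (insert a S) u d) :
    ∃ (N : ℕ) (u' : L) (d' : ℤ × ℤ), Den X S u' d' ∧ u = X.z a ^ N * u' ∧ d = N • 1 + d' := by
  induction h with
  | one => exact ⟨0, 1, 0, Den.one, by simp, by simp⟩
  | mul b hb _ ih =>
    obtain ⟨N, u', d', h1, rfl, rfl⟩ := ih
    rcases hb with rfl | hb
    · exact ⟨N + 1, u', d', h1, by ring, by rw [succ_nsmul]; ring⟩
    · exact ⟨N, _, _, Den.mul b hb h1, by ring, by ring⟩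

theorem empty (h : Den X ∅ u d) : u = 1 ∧ d = 0 := by
  cases h with
  | one => exact ⟨rfl, rfl⟩
  | mul a ha _ => exact absurd ha (notMem_empty a)

end Den

/-- Sections of the ideal sheaf over the open set where the `z a`, `a` in `S`, do not vanish. -/
def loc (J : Fam X) (S : Set A) (d : ℤ × ℤ) : Submodule k L where
  carrier := {x | ∃ u d', Den X S u d' ∧ u * x ∈ J.J (d' + d)}
  zero_mem' := ⟨1, 0, Den.one, by simp⟩
  add_mem' := by
    rintro x y ⟨u, d1, h1, hx⟩ ⟨v, d2, h2, hy⟩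
    refine ⟨u * v, d1 + d2, h1.mul' h2, ?_⟩
    rw [show u * v * (x + y) = v * (u * x) + u * (v * y) by ring]
    exact add_mem (J.mul' h2.mem hx (by ring)) (J.mul' h1.mem hy (by ring))
  smul_mem' := by
    rintro c x ⟨u, d1, h1, hx⟩
    refine ⟨u, d1, h1, ?_⟩
    rw [mul_smul_comm]
    exact smul_mem _ c hx

section loc
variable {J J' : Fam X} {S S' : Set A} {d d' d'' : ℤ × ℤ} {x y u : L} {a : A}

theorem mem_loc : x ∈ loc J S d ↔ ∃ u d', Den X S u d' ∧ u * x ∈ J.J (d' + d) := Iff.rfl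

theorem loc_mono (h : x ∈ loc J S d) (hJ : J ≤ J') (hS : S ⊆ S') : x ∈ loc J' S' d :=
  let ⟨u, d1, h1, hx⟩ := h
  ⟨u, d1, h1.mono hS, hJ _ hx⟩

theorem loc_of (h : x ∈ J.J d) : x ∈ loc J S d := ⟨1, 0, Den.one, by simpa using h⟩

theorem loc_mul (hx : x ∈ loc (top X) S d) (hy : y ∈ loc J S d') (h : d + d' = d'') :
    x * y ∈ loc J S d'' := by
  obtain ⟨u, d1, h1, hx⟩ := hx
  obtain ⟨v, d2, h2, hy⟩ := hy
  refine ⟨u * v, d1 + d2, h1.mul' h2, ?_⟩
  rw [mul_mul_mul_comm]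
  exact J.mul' hx hy (by rw [← h]; ring)

theorem loc_mul' (hx : x ∈ loc J S d) (hy : y ∈ loc (top X) S d') (h : d + d' = d'') :
    x * y ∈ loc J S d'' := by
  rw [mul_comm]
  exact loc_mul hy hx (by rw [← h, add_comm])

theorem loc_den (hu : Den X S u d') (h : u * x ∈ loc J S (d' + d)) : x ∈ loc J S d := by
  obtain ⟨v, d2, h2, hy⟩ := h
  refine ⟨v * u, d2 + d', h2.mul' hu, ?_⟩
  rwa [mul_assoc, add_assoc]

theorem loc_insert (h : x ∈ loc J (insert a S) d) :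
    ∀ᶠ N : ℕ in atTop, X.z a ^ N * x ∈ loc J S (N • 1 + d) := by
  obtain ⟨u, d1, h1, hx⟩ := h
  obtain ⟨N, u', d', h2, rfl, rfl⟩ := h1.split
  filter_upwards [eventually_ge_atTop N] with M hM
  obtain ⟨l, rfl⟩ := Nat.exists_eq_add_of_le hM
  refine ⟨u', d', h2, ?_⟩
  rw [show u' * (X.z a ^ (N + l) * x) = X.z a ^ l * (X.z a ^ N * u' * x) by ring]
  exact J.mul' (X.pow (X.zm a) l) hx (by rw [add_nsmul]; ring)

theorem loc_empty (h : x ∈ loc J ∅ d) : x ∈ J.J d := by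
  obtain ⟨u, d1, h1, hx⟩ := h
  obtain ⟨rfl, rfl⟩ := h1.empty
  simpa using hx

theorem loc_single (h : x ∈ loc J {a} d) :
    ∀ᶠ N : ℕ in atTop, X.z a ^ N * x ∈ J.J (N • 1 + d) := by
  rw [← insert_empty_eq] at h
  exact (loc_insert h).mono fun _ => loc_empty

theorem loc_bot (h : x ∈ loc (bot X) S d) : x = 0 := by
  obtain ⟨u, d1, h1, hx⟩ := h
  exact (mul_eq_zero.1 hx).resolve_left h1.ne

theorem loc_pow (h : x ∈ loc (top X) S d) (N : ℕ) : x ^ N ∈ loc (top X) S (N • d) := by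
  induction N with
  | zero => simpa using loc_of (J := top X) X.one
  | succ N ih =>
    rw [pow_succ]
    exact loc_mul ih h (succ_nsmul _ _).symm

theorem loc_of_z (hz : X.z a ∈ J.J 1) (ha : a ∈ S) (h : x ∈ loc (top X) S d) : x ∈ loc J S d := by
  refine loc_den (Den.mul a ha Den.one) ?_
  rw [mul_one]
  exact loc_mul' (loc_of hz) h (by ring)

end loc

/-- Homogeneously prime. -/
def Fam.Pr (P : Fam X) : Prop :=
  ∀ d d' x y, x ∈ X.R d → y ∈ X.R d' → x * y ∈ P.J (d + d') → x ∈ P.J d ∨ y ∈ P.J d'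

theorem Fam.Pr.cancel {P : Fam X} (hP : P.Pr) {S : Set A} {d₀ d : ℤ × ℤ} {f x : L}
    (hf : f ∈ X.R d₀) (hf' : f ∉ P.J d₀) (hx : x ∈ loc (top X) S d)
    (h : f * x ∈ loc P S (d₀ + d)) : x ∈ loc P S d := by
  obtain ⟨u, d1, h1, hx⟩ := hx
  obtain ⟨v, d2, h2, hy⟩ := h
  refine ⟨v * u, d2 + d1, h2.mul' h1, (hP d₀ _ f _ hf ?_ ?_).resolve_left hf'⟩
  · rw [mul_assoc, add_assoc]
    exact X.mul h2.mem hx
  · rw [show f * (v * u * x) = u * (v * (f * x)) by ring]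
    exact P.mul' h1.mem hy (by ring)

theorem Fam.Pr.pow {P : Fam X} (hP : P.Pr) {d₀ : ℤ × ℤ} {f : L} (hf : f ∈ X.R d₀)
    (hf' : f ∉ P.J d₀) (N : ℕ) : f ^ N ∉ P.J (N • d₀) := by
  induction N with
  | zero =>
    intro h
    exact hf' (by simpa using P.mul hf h)
  | succ N ih =>
    intro h
    rw [pow_succ, succ_nsmul] at h
    exact (hP _ _ _ _ (X.pow hf N) hf h).elim ih hf'

theorem Fam.Pr.den {P : Fam X} (hP : P.Pr) {a : A} (ha : X.z a ∉ P.J 1) {d : ℤ × ℤ} {x : L}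
    (hx : x ∈ X.R d) (h : x ∈ loc P {a} d) : x ∈ P.J d := by
  obtain ⟨N, hN⟩ := (loc_single h).exists
  exact (hP _ _ _ _ (X.pow (X.zm a) N) hx hN).resolve_left (hP.pow (X.zm a) ha N)

/-- Local version of the prime property. -/
theorem Fam.Pr.cancel' {P : Fam X} (hP : P.Pr) {S : Set A} {a : A} {d₀ d : ℤ × ℤ}
    {s x : L} (hs : s ∈ loc (top X) {a} d₀) (hs' : s ∉ loc P {a} d₀) (hx : x ∈ loc (top X) S d)
    (h : s * x ∈ loc P S (d₀ + d)) : x ∈ loc P S d := by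
  obtain ⟨u, d1, h1, h2⟩ := hs
  refine hP.cancel (f := u * s) h2 (fun h3 => hs' ⟨u, d1, h1, h3⟩) hx ?_
  rw [mul_assoc]
  exact loc_mul (loc_of h1.mem) h (by ring)

/-- The ideal quotient by an element. -/
def col (J : Fam X) (f : L) (d₀ : ℤ × ℤ) : Fam X where
  J d := X.R d ⊓ (J.J (d₀ + d)).comap (LinearMap.mulLeft k f)
  le _ := inf_le_left
  mul := fun {d d' x y} hx hy => ⟨X.mul hx hy.1, by
    have h : f * y ∈ J.J (d₀ + d') := hy.2
    change f * (x * y) ∈ J.J _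
    rw [mul_left_comm]
    exact J.mul' hx h (by ring)⟩

/-- The ideal with one more generator. -/
def adj (J : Fam X) {f : L} {d₀ : ℤ × ℤ} (hf : f ∈ X.R d₀) : Fam X where
  J d := J.J d ⊔ (X.R (d - d₀)).map (LinearMap.mulLeft k f)
  le d := sup_le (J.le d) (map_le_iff_le_comap.2 fun x hx => by
    have := X.mul hf hx
    rwa [add_sub_cancel] at this)
  mul := fun {d d' x y} hx hy => by
    obtain ⟨a, ha, _, ⟨b, hb, rfl⟩, rfl⟩ := mem_sup.1 hy
    refine mem_sup.2 ⟨x * a, J.mul hx ha, f * (x * b), ⟨x * b, ?_, rfl⟩, ?_⟩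
    · rw [add_sub_assoc]
      exact X.mul hx hb
    · simp only [LinearMap.mulLeft_apply]
      ring

section adj
variable {J : Fam X} {f x : L} {d₀ d : ℤ × ℤ} {S : Set A}

theorem mem_col : x ∈ (col J f d₀).J d ↔ x ∈ X.R d ∧ f * x ∈ J.J (d₀ + d) := Iff.rfl

theorem mem_adj (hf : f ∈ X.R d₀) :
    x ∈ (adj J hf).J (d₀ + d) ↔ ∃ b ∈ X.R d, x - f * b ∈ J.J (d₀ + d) := by
  change x ∈ J.J _ ⊔ (X.R (d₀ + d - d₀)).map (LinearMap.mulLeft k f) ↔ _
  rw [add_sub_cancel_left, Submodule.mem_sup]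
  constructor
  · rintro ⟨a, ha, _, ⟨b, hb, rfl⟩, rfl⟩
    exact ⟨b, hb, by simpa using ha⟩
  · rintro ⟨b, hb, h⟩
    exact ⟨_, h, f * b, ⟨b, hb, rfl⟩, sub_add_cancel _ _⟩

theorem le_adj (hf : f ∈ X.R d₀) : J ≤ adj J hf := fun _ => le_sup_left

theorem self_mem_adj (hf : f ∈ X.R d₀) : f ∈ (adj J hf).J d₀ := by
  have := (mem_adj (J := J) (x := f) (d := 0) hf).2 ⟨1, X.one, by simp⟩
  rwa [add_zero] at this

theorem lt_adj (hf : f ∈ X.R d₀) (hf' : f ∉ J.J d₀) : J < adj J hf :=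
  lt_of_le_of_ne (le_adj hf) fun h => hf' (h ▸ self_mem_adj hf)

theorem adj_le (hf : f ∈ X.R d₀) {J' : Fam X} (h : J ≤ J') (h' : f ∈ J'.J d₀) :
    adj J hf ≤ J' := fun d => sup_le (h d) (map_le_iff_le_comap.2 fun x hx => by
      change f * x ∈ J'.J d
      rw [mul_comm]
      exact J'.mul' hx h' (by ring))

theorem le_col (hf : f ∈ X.R d₀) : J ≤ col J f d₀ := fun d _ hx => ⟨J.le d hx, J.mul hf hx⟩

theorem loc_adj (hf : f ∈ X.R d₀) (h : x ∈ loc (adj J hf) S (d₀ + d)) :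
    ∃ b ∈ loc (top X) S d, x - f * b ∈ loc J S (d₀ + d) := by
  obtain ⟨u, d1, h1, hx⟩ := h
  rw [add_left_comm] at hx
  obtain ⟨b, hb, h2⟩ := (mem_adj hf).1 hx
  refine ⟨b / u, ⟨u, d1, h1, ?_⟩, u, d1, h1, ?_⟩
  · rwa [mul_div_cancel₀ _ h1.ne]
  · rwa [add_left_comm, mul_sub, mul_left_comm, mul_div_cancel₀ _ h1.ne]

theorem loc_col (hx : x ∈ loc (top X) S d) (h : f * x ∈ loc J S (d₀ + d)) :
    x ∈ loc (col J f d₀) S d := by
  obtain ⟨u, d1, h1, hx⟩ := hx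
  obtain ⟨v, d2, h2, hy⟩ := h
  refine ⟨v * u, d2 + d1, h2.mul' h1, mem_col.2 ⟨?_, ?_⟩⟩
  · rw [mul_assoc, add_assoc]
    exact X.mul h2.mem hx
  · rw [show f * (v * u * x) = u * (v * (f * x)) by ring]
    exact J.mul' h1.mem hy (by ring)

theorem of_loc_col (h : x ∈ loc (col J f d₀) S d) : f * x ∈ loc J S (d₀ + d) := by
  obtain ⟨u, d1, h1, hx⟩ := h
  refine ⟨u, d1, h1, ?_⟩
  rw [mul_left_comm, add_left_comm]
  exact hx.2

end adj

/-- Devissage. -/
theorem dev (hN : WellFounded fun J J' : Fam X => J' < J) {Φ : Fam X → Fam X → Prop}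
    (h0 : ∀ J, Φ J J) (h1 : ∀ J₁ J₂ J₃, J₁ ≤ J₂ → J₂ ≤ J₃ → Φ J₁ J₂ → Φ J₂ J₃ → Φ J₁ J₃)
    (h2 : ∀ (J : Fam X) f d₀ (hf : f ∈ X.R d₀), Φ (col J f d₀) (top X) → Φ J (adj J hf))
    (h3 : ∀ P : Fam X, P.Pr → (∀ J, P < J → Φ J (top X)) → Φ P (top X)) (J' J : Fam X)
    (h : J' ≤ J) : Φ J' J := by
  have key : ∀ J, Φ J (top X) := fun J => hN.induction J fun J ih => by
    by_cases hP : J.Pr
    · exact h3 J hP ih
    · simp only [Fam.Pr, not_forall, not_or] at hP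
      obtain ⟨d, d', x, y, hx, hy, hxy, hx', hy'⟩ := hP
      refine h1 _ _ _ (le_adj hx) (le_top' _) (h2 J x d hx (ih _ ?_)) (ih _ (lt_adj hx hx'))
      exact lt_of_le_of_ne (le_col hx) fun h => hy' (h ▸ mem_col.2 ⟨hy, hxy⟩)
  induction J' using hN.induction with
  | _ J' ih =>
    rcases h.eq_or_lt with rfl | h4
    · exact h0 _
    · obtain ⟨d, hd⟩ := not_forall.1 (mt Fam.le_def.2 h4.not_ge)
      obtain ⟨x, hx, hx'⟩ := SetLike.not_le_iff_exists.1 hd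
      have h5 := adj_le (J.le d hx) h hx
      exact h1 _ _ _ (le_adj _) h5 (h2 J' x d _ (key _)) (ih _ (lt_adj _ hx') h5)

end Pool.Agent.Lib.NAK
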