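import Pool.Agent.Lib.NAK.Coh

/-! Uniform vanishing, and base point freeness. -/

open Submodule Filter Set

noncomputable section

namespace Pool.Agent.Lib.NAK

variable {k L A : Type} [Field k] [Field L] [Algebra k L] {X : Dat k L A}

/-- A non-zero section of degree `d₀` on the subvariety `P`. -/
structure Sct (P : Fam X) (d₀ : ℤ × ℤ) (s : A → L) : Prop where
  mem : ∀ a, s a ∈ loc (top X) {a} d₀
  glue : ∀ a a', s a' - s a ∈ loc P {a, a'} d₀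
  ne : ∀ a, X.z a ∉ P.J 1 → s a ∉ loc P {a} d₀

section
variable {P : Fam X} {d d₀ d₁ : ℤ × ℤ} {s t : A → L}

theorem Sct.of (hP : P.Pr) (h1 : ∀ a, s a ∈ loc (top X) {a} d₀)
    (h2 : ∀ a a', s a' - s a ∈ loc P {a, a'} d₀) {a₀ : A} (h3 : s a₀ ∉ loc P {a₀} d₀) :
    Sct P d₀ s := ⟨h1, h2, fun a ha h => h3 (by
  have h4 : s a₀ ∈ loc P {a, a₀} d₀ := by
    simpa using add_mem (h2 a a₀) (loc_mono h le_rfl (s1 a a₀))
  obtain ⟨N, hN⟩ := (loc_insert h4).exists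
  exact hP.cancel (X.pow (X.zm a) N) (hP.pow (X.zm a) ha N) (h1 a₀) hN)⟩

theorem Sct.const (hP : P.Pr) {g : L} (hg : g ∈ X.R d₀) (hg' : g ∉ P.J d₀) :
    Sct P d₀ fun _ => g :=
  ⟨fun _ => loc_of hg, fun _ _ => by simp, fun _ ha h => hg' (hP.den ha hg h)⟩

theorem Sct.mul (hP : P.Pr) (hs : Sct P d₀ s) (ht : Sct P d₁ t) : Sct P (d₀ + d₁) (s * t) := by
  refine ⟨fun a => loc_mul (hs.mem a) (ht.mem a) rfl, fun a a' => ?_, fun a ha h =>
    ht.ne a ha (hP.cancel' (hs.mem a) (hs.ne a ha) (ht.mem a) h)⟩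
  rw [show (s * t) a' - (s * t) a = s a' * (t a' - t a) + (s a' - s a) * t a by
    simp only [Pi.mul_apply]; ring]
  exact add_mem (loc_mul (loc_mono (hs.mem a') le_rfl (s2 _ _)) (ht.glue a a') rfl)
    (loc_mul' (hs.glue a a') (loc_mono (ht.mem a) le_rfl (s1 _ _)) rfl)

theorem Sct.pow_mul (hP : P.Pr) (hs : Sct P d₀ s) (ht : Sct P d₁ t) (r : ℕ) :
    Sct P (r • d₀ + d₁) (s ^ r * t) := by
  induction r with
  | zero => simpa using ht
  | succ r ih =>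
    rw [succ_nsmul', add_assoc, pow_succ', mul_assoc]
    exact hs.mul hP ih

/-- The ideal of the zeros of a section. -/
def zer (P : Fam X) (d₀ : ℤ × ℤ) (s : A → L) : Fam X where
  J d :=
    { carrier := {x | x ∈ X.R d ∧ ∀ a, ∃ x' ∈ loc (top X) {a} (d - d₀), x - s a * x' ∈ loc P {a} d}
      zero_mem' := ⟨zero_mem _, fun _ => ⟨0, zero_mem _, by simp⟩⟩
      add_mem' := fun {x y} hx hy => ⟨add_mem hx.1 hy.1, fun a => by
        obtain ⟨x', h1, h2⟩ := hx.2 a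
        obtain ⟨y', h3, h4⟩ := hy.2 a
        refine ⟨x' + y', add_mem h1 h3, ?_⟩
        rw [show x + y - s a * (x' + y') = x - s a * x' + (y - s a * y') by ring]
        exact add_mem h2 h4⟩
      smul_mem' := fun c x hx => ⟨smul_mem _ c hx.1, fun a => by
        obtain ⟨x', h1, h2⟩ := hx.2 a
        refine ⟨c • x', smul_mem _ c h1, ?_⟩
        rw [mul_smul_comm, ← smul_sub]
        exact smul_mem _ c h2⟩ }
  le _ _ hx := hx.1
  mul := fun {d d' x y} hx hy => ⟨X.mul hx hy.1, fun a => by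
    obtain ⟨y', h3, h4⟩ := hy.2 a
    refine ⟨x * y', loc_mul (loc_of hx) h3 (by ring), ?_⟩
    rw [show x * y - s a * (x * y') = x * (y - s a * y') by ring]
    exact loc_mul (loc_of hx) h4 rfl⟩

theorem le_zer : P ≤ zer P d₀ s := fun d _ hx =>
  ⟨P.le d hx, fun _ => ⟨0, zero_mem _, by simpa using loc_of hx⟩⟩

variable [Finite A]

theorem Sct.ev (hs : Sct P d₀ s) (a : A) :
    ∀ᶠ N : ℕ in atTop, X.z a ^ N * s a ∈ (zer P d₀ s).J (N • 1 + d₀) := by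
  filter_upwards [loc_single (hs.mem a), eventually_all.2 fun a' => loc_insert (hs.glue a a')]
    with N h1 h2
  refine ⟨h1, fun a' => ⟨X.z a ^ N, ?_, ?_⟩⟩
  · rw [add_sub_cancel_right]
    exact loc_of (X.pow (X.zm a) N)
  · rw [show X.z a ^ N * s a - s a' * X.z a ^ N = -(X.z a ^ N * (s a' - s a)) by ring]
    exact neg_mem (h2 a')

theorem Sct.lt (hs : Sct P d₀ s) {a : A} (ha : X.z a ∉ P.J 1) : P < zer P d₀ s := by
  obtain ⟨N, hN⟩ := (hs.ev a).exists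
  refine lt_of_le_of_ne le_zer fun h => hs.ne a ha ⟨_, _, Den.pow (mem_singleton a) N, ?_⟩
  rwa [← h] at hN

theorem Sct.step (hP : P.Pr) (hs : Sct P d₀ s) (h : H2 P (top X) d) :
    H2 P (zer P d₀ s) (d₀ + d) := by
  refine H2.mor s (fun a => ?_) hs.glue (fun a a' x hx => ?_) (fun a S ha x hx h1 => ?_)
    (fun a a' x hx => loc_mul (loc_mono (hs.mem a) le_rfl (s1 _ _)) hx rfl) h
  · obtain ⟨N, hN⟩ := (hs.ev a).exists
    exact ⟨_, _, Den.pow (mem_singleton a) N, hN⟩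
  · obtain ⟨u, d1, h1, h2⟩ := hx
    obtain ⟨x', h3, h4⟩ := h2.2 a
    refine ⟨x' / u, loc_den h1 ?_, loc_den h1 ?_⟩
    · rw [mul_div_cancel₀ _ h1.ne, show d1 + d = d1 + (d₀ + d) - d₀ by ring]
      exact loc_mono h3 le_rfl (s1 _ _)
    · rw [mul_sub, mul_left_comm, mul_div_cancel₀ _ h1.ne]
      exact loc_mono h4 le_rfl (s1 _ _)
  · by_cases hz : X.z a ∈ P.J 1
    · exact loc_of_z hz ha hx
    · exact hP.cancel' (hs.mem a) (hs.ne a hz) hx h1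

omit [Finite A] in
theorem H2.lift (h : H2 (bot X) P d) (hs : Sct P d s) {a₀ : A} (ha : X.z a₀ ∉ P.J 1) :
    ∃ x, (∀ a, x ∈ loc (top X) {a} d) ∧ x ∉ loc P {a₀} d := by
  obtain ⟨b, hb, h1⟩ := h (fun a a' => s a' - s a) hs.glue fun a a' a'' => by simp
  refine ⟨s a₀ - b a₀, fun a => ?_, fun h2 => hs.ne a₀ ha (by simpa using add_mem h2 (hb a₀))⟩
  rw [show s a₀ - b a₀ = s a - b a by linear_combination loc_bot (h1 a a₀)]
  exact sub_mem (hs.mem a) (loc_mono (hb a) (le_top' _) subset_rfl)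

end

variable (X) in
/-- Every subvariety carries a section whose degree lies in a half plane. -/
def Pse (μ ν : ℤ) : Prop := ∀ P : Fam X, P.Pr → ∀ a, X.z a ∉ P.J 1 →
  ∃ d₀ s, Sct P d₀ s ∧ 0 < d₀.1 ∧ μ * d₀.2 + ν * d₀.1 ≤ 0

variable [Finite A] (hN : WellFounded fun J J' : Fam X => J' < J) {μ ν : ℤ} (hμ : 0 < μ)
  (hS : Pse X μ ν)
include hN hμ hS

theorem fujita (J' J : Fam X) (h : J' ≤ J) :
    ∃ c c' : ℤ, ∀ d : ℤ × ℤ, c ≤ d.1 → c' ≤ μ * d.2 + ν * d.1 → H2 J' J d := by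
  refine dev hN
    (Φ := fun J' J => ∃ c c' : ℤ, ∀ d : ℤ × ℤ, c ≤ d.1 → c' ≤ μ * d.2 + ν * d.1 → H2 J' J d)
    (fun J => ⟨0, 0, fun _ _ _ => H2.refl J⟩) ?_ ?_ ?_ J' J h
  · rintro _ _ _ h h' ⟨c, c', h1⟩ ⟨e, e', h2⟩
    exact ⟨max c e, max c' e', fun d h3 h4 => H2.trans h h'
      (h1 d (le_of_max_le_left h3) (le_of_max_le_left h4))
      (h2 d (le_of_max_le_right h3) (le_of_max_le_right h4))⟩
  · rintro J f d₀ hf ⟨c, c', h1⟩
    refine ⟨c + d₀.1, c' + (μ * d₀.2 + ν * d₀.1), fun d h3 h4 => ?_⟩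
    rw [← add_sub_cancel d₀ d]
    refine H2.shift hf (h1 _ ?_ ?_)
    · rw [Prod.fst_sub]
      linarith
    · rw [Prod.fst_sub, Prod.snd_sub]
      linarith
  · intro P hP ih
    by_cases hz : ∀ a, X.z a ∈ P.J 1
    · exact ⟨0, 0, fun _ _ _ => H2.triv hz⟩
    obtain ⟨a, ha⟩ := not_forall.1 hz
    obtain ⟨d₀, s, hs, h0, h1⟩ := hS P hP a ha
    obtain ⟨c, c', h2⟩ := ih _ (hs.lt ha)
    obtain ⟨e, h3⟩ := eventually_atTop.1 (serre2 hN P _ (le_top' _))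
    have key : ∀ (n : ℕ) (d : ℤ × ℤ), d.1 < max c e.1 + n → max c e.1 ≤ d.1 →
        max c' (μ * e.2 + |ν| * (|max c e.1| + d₀.1)) ≤ μ * d.2 + ν * d.1 → H2 P (top X) d := by
      intro n
      induction n with
      | zero => exact fun d h4 h5 _ => absurd h5 (by omega)
      | succ n ihn =>
        intro d h4 h5 h6
        by_cases h7 : d.1 < max c e.1 + d₀.1
        · refine h3 d ⟨le_of_max_le_right h5, le_of_mul_le_mul_left ?_ hμ⟩
          have h8 : |d.1| ≤ |max c e.1| + d₀.1 := abs_le.2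
            ⟨by linarith [neg_abs_le (max c e.1)], by linarith [le_abs_self (max c e.1)]⟩
          have h9 : ν * d.1 ≤ |ν| * (|max c e.1| + d₀.1) :=
            (le_abs_self _).trans ((abs_mul _ _).le.trans (by gcongr))
          linarith [le_of_max_le_right h6]
        · refine H2.trans le_zer (le_top' _) ?_
            (h2 d (le_of_max_le_left h5) (le_of_max_le_left h6))
          rw [← add_sub_cancel d₀ d]
          refine hs.step hP (ihn _ ?_ ?_ ?_)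
          · rw [Prod.fst_sub]
            push_cast at h4
            linarith
          · rw [Prod.fst_sub]
            linarith
          · rw [Prod.fst_sub, Prod.snd_sub]
            linarith
    exact ⟨_, _, fun d h4 h5 => key (d.1 - max c e.1 + 1).toNat d (by omega) h4 h5⟩

variable (hg : ∀ a, ∃ p ∈ X.R (1, 0), ∃ y ∈ X.R (0, 1), X.z a = p * y) {d₁ : ℤ × ℤ}
  (h1 : 0 < d₁.1) (h2 : 0 < μ * d₁.2 + ν * d₁.1)
include hg h1 h2

theorem sect {P : Fam X} (hP : P.Pr) {a₀ : A} (ha : X.z a₀ ∉ P.J 1) : ∀ᶠ n : ℕ in atTop,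
    ∃ x, (∀ a, x ∈ loc (top X) {a} (n • d₁)) ∧ x ∉ loc P {a₀} (n • d₁) := by
  obtain ⟨d₀, s, hs, h0, h3⟩ := hS P hP a₀ ha
  obtain ⟨c, c', h4⟩ := fujita hN hμ hS _ P (bot_le' P)
  obtain ⟨p, hp, y, hy, hz⟩ := hg a₀
  have hp' : p ∉ P.J (1, 0) := fun h => ha (by
    rw [hz, mul_comm]
    exact P.mul' hy h rfl)
  have hy' : y ∉ P.J (0, 1) := fun h => ha (hz ▸ P.mul' hp h rfl)
  filter_upwards [eventually_ge_atTop c.toNat, eventually_ge_atTop c'.toNat,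
    eventually_ge_atTop (|ν| * d₀.1).toNat] with n n1 n2 n3
  have e1 : (n • d₁).1 = n * d₁.1 := by simp
  have e2 : (n • d₁).2 = n * d₁.2 := by simp
  have n0 : (0 : ℤ) ≤ n := Int.natCast_nonneg n
  have e3 : (n : ℤ) ≤ μ * (n * d₁.2) + ν * (n * d₁.1) := by nlinarith
  obtain ⟨r, hr⟩ := Int.eq_ofNat_of_zero_le (Int.ediv_nonneg (mul_nonneg n0 h1.le) h0.le)
  obtain ⟨i, hi⟩ := Int.eq_ofNat_of_zero_le (Int.emod_nonneg (n * d₁.1) h0.ne')
  have e4 : (i : ℤ) < d₀.1 := hi ▸ Int.emod_lt_of_pos _ h0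
  have e5 : (i : ℤ) + d₀.1 * r = n * d₁.1 := by
    rw [← hi, ← hr]
    exact Int.emod_add_mul_ediv _ _
  have e6 : 0 ≤ n * d₁.2 - r * d₀.2 := by
    refine le_of_mul_le_mul_left ?_ hμ
    have h5 : ν * i ≤ |ν| * d₀.1 :=
      mul_le_mul (le_abs_self ν) e4.le (Int.natCast_nonneg i) (abs_nonneg ν)
    have h6 : (r : ℤ) * (μ * d₀.2 + ν * d₀.1) ≤ 0 :=
      mul_nonpos_of_nonneg_of_nonpos (Int.natCast_nonneg r) h3
    have h7 : |ν| * d₀.1 ≤ n := by omega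
    rw [← e5] at e3
    nlinarith
  obtain ⟨j, hj⟩ := Int.eq_ofNat_of_zero_le e6
  have h8 := hs.pow_mul hP ((Sct.const hP (X.pow hp i) (hP.pow hp hp' i)).mul hP
    (Sct.const hP (X.pow hy j) (hP.pow hy hy' j))) r
  rw [show r • d₀ + (i • ((1, 0) : ℤ × ℤ) + j • ((0, 1) : ℤ × ℤ)) = n • d₁ from Prod.ext
    (by simp; linarith) (by simp; linarith)] at h8
  refine (h4 _ ?_ ?_).lift h8 ha
  · rw [e1]
    have : c ≤ n := by omega
    nlinarith
  · rw [e1, e2]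
    have : c' ≤ n := by omega
    linarith

/-- A multiple of the class has no base points. -/
theorem free : ∃ u : ℕ, 0 < u ∧ ∀ P : Fam X, P.Pr → ∀ a₀, X.z a₀ ∉ P.J 1 →
    ∃ x, (∀ a, x ∈ loc (top X) {a} (u • d₁)) ∧ x ∉ loc P {a₀} (u • d₁) := by
  let Bad : ℕ → Fam X → Prop := fun u P => P.Pr ∧ ∃ a₀, X.z a₀ ∉ P.J 1 ∧
    ∀ x, (∀ a, x ∈ loc (top X) {a} (u • d₁)) → x ∈ loc P {a₀} (u • d₁)
  let B : ℕ → Fam X := fun u =>
    { J := fun d => X.R d ⊓ ⨅ P : {P // Bad u P}, P.1.J d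
      le := fun _ => inf_le_left
      mul := fun hx hy => ⟨X.mul hx hy.1, (mem_iInf _).2 fun P =>
        P.1.mul hx ((mem_iInf _).1 hy.2 P)⟩ }
  obtain ⟨_, ⟨u, hu, rfl⟩, hmax⟩ := hN.has_min {J | ∃ u, 0 < u ∧ J = B u} ⟨_, 1, one_pos, rfl⟩
  refine ⟨u, hu, fun P hP a₀ ha => ?_⟩
  by_contra hc
  have hb : Bad u P := ⟨hP, a₀, ha, fun x hx => by_contra fun h => hc ⟨x, hx, h⟩⟩
  obtain ⟨n, hn⟩ := eventually_atTop.1 (sect hN hμ hS hg h1 h2 hP ha)
  obtain ⟨x, hx, hx'⟩ := hn ((n + 1) * u) (by nlinarith)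
  obtain ⟨N, h3⟩ := (loc_single (hx a₀)).exists
  refine hmax (B ((n + 1) * u)) ⟨_, by positivity, rfl⟩ (lt_of_le_of_ne ?_ fun h => ?_)
  · refine fun d => inf_le_inf_left _ (le_iInf fun Q => iInf_le_of_le ⟨Q.1, Q.2.1, ?_⟩ le_rfl)
    obtain ⟨hQ, a, h4, h5⟩ := Q.2
    refine ⟨a, h4, fun w hw => by_contra fun h6 => ?_⟩
    have key : ∀ l : ℕ, w ^ (l + 1) ∉ loc Q.1 {a} ((l + 1) • u • d₁) := by
      intro l
      induction l with
      | zero => simpa using h6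
      | succ l ih =>
        rw [pow_succ', succ_nsmul']
        exact fun h7 => ih (hQ.cancel' (hw a) h6 (loc_pow (hw a) _) h7)
    refine key n ?_
    rw [smul_smul]
    exact h5 _ fun a' => by simpa only [smul_smul] using loc_pow (hw a') (n + 1)
  · have h4 : X.z a₀ ^ N * x ∈ (B ((n + 1) * u)).J _ := ⟨h3, (mem_iInf _).2 fun Q => by
      obtain ⟨hQ, a, h4, h5⟩ := Q.2
      exact hQ.den h4 h3 (loc_mul (loc_of (X.pow (X.zm a₀) N)) (h5 x hx) rfl)⟩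
    rw [← h] at h4
    exact hx' ⟨_, _, Den.pow (mem_singleton a₀) N, (mem_iInf _).1 h4.2 ⟨P, hb⟩⟩

end Pool.Agent.Lib.NAK
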