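import Pool.Agent.Lib.NAK.SDefs

/-! Complex curves on a projective model with three linear systems. -/

noncomputable section

namespace Pool.Agent.Lib.NAK

open Pool.Agent.Lib.MP_7fcda1_ag Pool.Agent.Lib.UR

variable {L ι τ τ' : Type} [Field L] [Algebra ℂ L]

/-- A curve, together with a chart for a third system `G`. -/
structure Crv₃ (y : ι → L) (p : τ → L) (G : τ' → L) extends Crv y p where
  s : τ'
  G0 : G s ≠ 0
  hG : ∀ l, G l / G s ∈ O

/-- The system `G` on the curve. -/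
def Crv₃.K {y : ι → L} {p : τ → L} {G : τ' → L} (C : Crv₃ y p G) (l : τ') : C.F :=
  C.χ ⟨G l / G C.s, C.hG l⟩

/-- Let `y`, `p`, `G` have classes `H`, `D + q H`, `K + q' H`. Every curve of the model that lies
on none of the hypersurfaces `g m = 0` has `D · C ≠ 0` and
`H · C ≤ N (r (2 g - 2) + (D - r K) · C)`. -/
def LHypC (q : ℕ) (y : ι → L) (p : τ → L) (q' : ℕ) (G : τ' → L) (r N : ℕ)
    (g : ℕ → MvPolynomial ι ℂ) : Prop :=
  ∀ C : Crv₃ y p G, Gen ℂ C.Y → (∀ m, MvPolynomial.aeval C.Y (g m) ≠ 0) →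
    q * ht ℂ C.Y ≠ ht ℂ C.P ∧ ∀ (D : Derivation ℂ C.F C.F) (W : Div ℂ C.F), D ≠ 0 →
      (∀ (v : Place ℂ C.F) (π : C.F), ord v.O π = 1 → W v = -ord v.O (D π)) →
      ht ℂ C.Y ≤ N * (r * degD W + (ht ℂ C.P - q * ht ℂ C.Y - r * (ht ℂ C.K - q' * ht ℂ C.Y)))

end Pool.Agent.Lib.NAK
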