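import Pool.Agent.Lib.NAK.Trf
import Pool.Agent.Lib.NAK.LDefs
import Pool.Agent.Lib.A35.LDefs

/-! Transfer of the logarithmic hypothesis. -/

open Set

noncomputable section

namespace Pool.Agent.Lib.NAK

open Pool.Agent.Lib.MP_7fcda1_ag Pool.Agent.Lib.UR Pool.Agent.Lib.A35

variable {L ι τ τ' : Type} [Field L] [Algebra ℂ L] [Finite ι] [Finite τ] [Finite τ'] {y : ι → L}
  {p : τ → L} {G : τ' → L}

theorem lhyp_of {q q' r N : ℕ} {g : ℕ → MvPolynomial ι ℂ} {i : ι} (hi : y i = 1) (hy : Gen ℂ y)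
    (hp : p ≠ 0) (hG : G ≠ 0) (hg : ∀ m, MvPolynomial.aeval y (g m) ≠ 0) (h' : NefC q y p)
    (h : LHypC q y p q' G r N g) : LHyp q y p q' G r N := by
  intro κ F _ _ _ _ _ _ _ _ σ hσ
  obtain ⟨j, hj⟩ := Function.ne_iff.1 hp
  obtain ⟨s, hs⟩ := Function.ne_iff.1 hG
  have hu : Gen κ fun l => σ (y l) := by
    refine eq_top_iff.2 (hσ.ge.trans (IntermediateField.adjoin_le_iff.2 ?_))
    rintro _ ⟨x, rfl⟩
    have h2 : IntermediateField.adjoin ℂ (range y) ≤
        ((IntermediateField.adjoin κ (range fun l => σ (y l))).restrictScalars ℂ).comap σ :=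
      IntermediateField.adjoin_le_iff.2 (range_subset_iff.2 fun l =>
        IntermediateField.subset_adjoin κ _ ⟨l, rfl⟩)
    exact h2 (hy.ge trivial)
  let a : ι ⊕ τ ⊕ τ' → L :=
    Sum.elim (fun l => y l / y i) (Sum.elim (fun l => p l / p j) fun l => G l / G s)
  obtain ⟨k₀, hk, h1⟩ := exists_lift a _
    (countable_range fun m => MvPolynomial.rename Sum.inl (g m))
  obtain ⟨E, _, _, _, ψ, u', h2, h3, h4, h5, h6, h7⟩ :=
    trf (algebraMap ℂ κ) hu (countable_range fun l => σ (a l)) hk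
  choose b hb using fun l => h4 ⟨l, rfl⟩
  obtain ⟨⟨χ', h8⟩, h9⟩ := h1 E F ψ b
    (fun c hc => (h5 c hc).trans (IsScalarTower.algebraMap_apply ℂ κ F c).symm) fun t ht => by
      rw [funext hb, ← MvPolynomial.comp_aeval_apply, ht, map_zero]
  let C : Crv₃ y p G := ⟨⟨E, Algebra.adjoin ℂ (range a), i, j, hi ▸ one_ne_zero, hj,
    fun l => Algebra.subset_adjoin ⟨.inl l, rfl⟩,
    fun l => Algebra.subset_adjoin ⟨.inr (.inl l), rfl⟩, χ'⟩, s, hs,
    fun l => Algebra.subset_adjoin ⟨.inr (.inr l), rfl⟩⟩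
  have e0 : ∀ l, ψ (b (.inl l)) = σ (y l) := fun l => (hb _).trans (by simp [a, hi])
  have e1 : C.Y = fun l => b (.inl l) := funext fun l => h8 (.inl l)
  have e2 : C.P = fun l => b (.inr (.inl l)) := funext fun l => h8 (.inr (.inl l))
  have e3 : C.K = fun l => b (.inr (.inr l)) := funext fun l => h8 (.inr (.inr l))
  have a1 : ht ℂ C.Y = ht κ fun l => σ (y l) := by
    rw [e1]
    exact (h6 _ _).trans (congrArg (ht κ) (funext e0))
  have a2 : ht ℂ C.P = ht κ fun l => σ (p l) := by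
    rw [e2, ← M.NORM.ht_mul ((map_ne_zero σ).2 (inv_ne_zero hj)) fun l => σ (p l)]
    exact (h6 _ _).trans (congrArg (ht κ) (funext fun l => (hb _).trans (by
      simp [a, div_eq_inv_mul])))
  have a3 : ht ℂ C.K = ht κ fun l => σ (G l) := by
    rw [e3, ← M.NORM.ht_mul ((map_ne_zero σ).2 (inv_ne_zero hs)) fun l => σ (G l)]
    exact (h6 _ _).trans (congrArg (ht κ) (funext fun l => (hb _).trans (by
      simp [a, div_eq_inv_mul])))
  obtain ⟨h10, h11⟩ := h C (by
    rw [e1]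
    refine eq_top_iff.2 (h2.ge.trans (IntermediateField.adjoin.mono ℂ _ _ ?_))
    rintro _ ⟨l, rfl⟩
    exact ⟨l, ψ.injective ((e0 l).trans (h3 l).symm)⟩) fun m h0 => hg m (σ.injective (by
      have h10 := h9 _ ⟨m, rfl⟩
      rw [e1] at h0
      rw [MvPolynomial.aeval_rename, MvPolynomial.aeval_rename] at h10
      refine (MvPolynomial.comp_aeval_apply _ σ _).trans (Eq.trans ?_ (map_zero σ).symm)
      rw [← funext e0]
      exact h10.symm.trans ((congrArg ψ h0).trans (map_zero ψ))))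
  replace h10 := (h' C.toCrv).lt_of_ne h10
  rw [a1, a2] at h10
  refine ⟨h10, fun D W hD hW => ?_⟩
  obtain ⟨d, W', h12, h13, h14⟩ := h7 D W hD hW
  have h15 := h11 d W' h12 h13
  rw [a1, a2, a3] at h15
  exact h15.trans (mul_le_mul_of_nonneg_left (add_le_add_left
    (mul_le_mul_of_nonneg_left h14 (Int.natCast_nonneg r)) _) (Int.natCast_nonneg N))

end Pool.Agent.Lib.NAK
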