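import Pool.Agent.Lib.NAK.Trf
import Pool.Agent.Lib.PN.B_MOR
import Pool.Agent.Lib.PN.B_DET
import Pool.Agent.Lib.PN.B_MR0
import Pool.Agent.Lib.PN.B_MR1
import Pool.Agent.Lib.PN.B_RAT
import Pool.Agent.Lib.PN.B_SPC
import Pool.Agent.Lib.PN.B_SWP
import Pool.Agent.Lib.A35.B_FRG

/-! A smooth model without rational curves has nef canonical class. -/

open Set MvPolynomial

noncomputable section

namespace Pool.Agent.Lib.NAK

open Pool.Agent.Lib.MP_7fcda1_ag Pool.Agent.Lib.UR Pool.Agent.Lib.UR.M Pool.Agent.Lib.PN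

theorem taylor {σ : Type} [Fintype σ] {K : Ideal (MvPolynomial σ ℂ)} {h : σ → MvPolynomial σ ℂ}
    (hh : ∀ j, h j - X j ∈ K) (g : MvPolynomial σ ℂ) :
    aeval h g - g - ∑ j, pderiv j g * (h j - X j) ∈ K ^ 2 := by
  classical
  induction g using MvPolynomial.induction_on with
  | C a => simp
  | add p q hp hq =>
    have h1 := add_mem hp hq
    simp only [map_add, add_mul, Finset.sum_add_distrib]
    rwa [show ∀ a b c d e f : MvPolynomial σ ℂ, a - b - c + (d - e - f) =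
      a + d - (b + e) - (c + f) from fun _ _ _ _ _ _ => by ring] at h1
  | mul_X p i hp =>
    have h1 : ∑ j, pderiv j (p * X i) * (h j - X j) =
        (∑ j, pderiv j p * (h j - X j)) * X i + p * (h i - X i) := by
      simp only [Derivation.leibniz, smul_eq_mul, add_mul, Finset.sum_add_distrib, pderiv_X,
        Pi.single_apply, mul_ite, ite_mul, mul_one, mul_zero, zero_mul, Finset.sum_ite_eq,
        Finset.mem_univ, if_true, Finset.sum_mul]
      rw [add_comm]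
      exact congrArg (· + _) (Finset.sum_congr rfl fun j _ => by ring)
    have h2 : (∑ j, pderiv j p * (h j - X j)) * (h i - X i) ∈ K ^ 2 :=
      pow_two K ▸ Ideal.mul_mem_mul (Ideal.sum_mem _ fun j _ => K.mul_mem_left _ (hh j)) (hh i)
    rw [h1, map_mul, aeval_X]
    have h3 := add_mem (Ideal.mul_mem_right (h i) _ hp) h2
    rwa [show ∀ a b c d e : MvPolynomial σ ℂ, (a - b - c) * d + c * (d - e) =
      a * d - b * e - (c * e + b * (d - e)) from fun _ _ _ _ _ => by ring] at h3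

/-- The conormal sequence of a smooth algebra is injective at every point. -/
theorem conormal_pt {σ A : Type} [Fintype σ] [CommRing A] [Algebra ℂ A]
    [Algebra.FormallySmooth ℂ A] (f : MvPolynomial σ ℂ →ₐ[ℂ] A) (hf : Function.Surjective f)
    {Q : Ideal (MvPolynomial σ ℂ)} (hQ : RingHom.ker f.toRingHom ≤ Q) {g : MvPolynomial σ ℂ}
    (hg : f g = 0) (hd : ∀ j, pderiv j g ∈ Q) : g ∈ Q * RingHom.ker f.toRingHom := by
  obtain ⟨s, hs⟩ := (Algebra.FormallySmooth.iff_split_surjection f hf).1 inferInstance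
  choose h hh using fun j => Ideal.Quotient.mk_surjective (s (f (X j)))
  have h1 : ∀ j, h j - X j ∈ RingHom.ker f.toRingHom := fun j => by
    have h2 := DFunLike.congr_fun hs (f (X j))
    rw [AlgHom.comp_apply, ← hh] at h2
    exact (map_sub f _ _).trans (sub_eq_zero.2 h2)
  have h2 : (Ideal.Quotient.mkₐ ℂ (RingHom.ker f.toRingHom ^ 2)).comp (aeval h) = s.comp f :=
    MvPolynomial.algHom_ext fun j => by
      rw [AlgHom.comp_apply, aeval_X]
      exact hh j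
  have h3 : aeval h g ∈ RingHom.ker f.toRingHom ^ 2 := Ideal.Quotient.eq_zero_iff_mem.1
    ((DFunLike.congr_fun h2 g).trans (by rw [AlgHom.comp_apply, hg, map_zero]))
  have h4 : RingHom.ker f.toRingHom ^ 2 ≤ Q * RingHom.ker f.toRingHom :=
    pow_two (RingHom.ker f.toRingHom) ▸ Ideal.mul_mono_left hQ
  have h5 := sub_mem (h4 (sub_mem h3 (taylor h1 g)))
    (Ideal.sum_mem _ fun j (_ : j ∈ Finset.univ) => Ideal.mul_mem_mul (hd j) (h1 j))
  rwa [show ∀ a b c : MvPolynomial σ ℂ, a - (a - b - c) - c = b from fun _ _ _ => by ring] at h5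

theorem cramer {R : Type} [CommRing R] {ρ n : ℕ} (J : Fin ρ → Fin (ρ + n + 1) → R) (T : PN.Ix ρ n)
    (w : Fin (ρ + n + 1) → R) : ∃ (a : Fin ρ → R) (b : Fin (n + 1) → R),
      ∀ j, dt J T * w j = ∑ r, a r * J r j + ∑ t, if j = T t then b t else 0 := by
  let M : Matrix (Fin ρ ⊕ Fin (n + 1)) (Fin ρ ⊕ Fin (n + 1)) R := Matrix.of fun a b =>
    Sum.elim J (fun t j => if j = T t then (1 : R) else 0) a
      (finSumFinEquiv (m := ρ) (n := n + 1) b)
  let c := Matrix.vecMul (fun b => w (finSumFinEquiv (m := ρ) (n := n + 1) b)) M.adjugate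
  refine ⟨fun r => c (.inl r), fun t => c (.inr t), fun j => ?_⟩
  obtain ⟨b, rfl⟩ := (finSumFinEquiv (m := ρ) (n := n + 1)).surjective j
  have h := congrFun (Matrix.vecMul_vecMul
    (fun b => w (finSumFinEquiv (m := ρ) (n := n + 1) b)) M.adjugate M) b
  rw [Matrix.adjugate_mul, Matrix.vecMul_smul, Matrix.vecMul_one] at h
  refine h.symm.trans ?_
  simp [Matrix.vecMul, dotProduct, Fintype.sum_sum_type, M, c]

theorem nakayama {R Λ : Type} [CommRing R] [Fintype Λ] (G : Λ → R) {I Q : Ideal R} [Q.IsPrime]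
    {Δ : R} (hΔ : Δ ∉ Q) (h : ∀ l, Δ * G l ∈ I ⊔ Q * Ideal.span (range G)) :
    ∃ δ ∉ Q, ∀ l, δ * G l ∈ I := by
  classical
  have h1 : ∀ l, ∃ q : Λ → R, (∀ i, q i ∈ Q) ∧ Δ * G l - ∑ i, q i * G i ∈ I := fun l => by
    obtain ⟨a, ha, b, hb, h1⟩ := Submodule.mem_sup.1 (h l)
    obtain ⟨q, h2, rfl⟩ := (Submodule.mem_ideal_smul_span_iff_exists_sum Q G b).1 hb
    rw [Finsupp.sum_fintype q (fun i c => c • G i) fun _ => zero_smul _ _] at h1
    exact ⟨q, h2, by rwa [← h1, show ∑ i, q i • G i = ∑ i, q i * G i from rfl, add_sub_cancel_right]⟩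
  choose q h2 h3 using h1
  let A : Matrix Λ Λ R := Δ • 1 - Matrix.of q
  refine ⟨A.det, fun h4 => hΔ (Ideal.IsPrime.mem_of_pow_mem inferInstance (Fintype.card Λ) ?_),
    fun l => ?_⟩
  · rw [← Ideal.Quotient.eq_zero_iff_mem] at h4 ⊢
    rw [RingHom.map_det, show (Ideal.Quotient.mk Q).mapMatrix A = Ideal.Quotient.mk Q Δ • 1 from
      Matrix.ext fun i j => by
        by_cases hij : i = j <;>
          simp [A, Ideal.Quotient.eq_zero_iff_mem.2 (h2 _ _), hij],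
      Matrix.det_smul, Matrix.det_one, mul_one] at h4
    rwa [map_pow]
  · have h4 := congrFun (Matrix.mulVec_mulVec G A.adjugate A) l
    rw [Matrix.adjugate_mul, Matrix.smul_mulVec, Matrix.one_mulVec] at h4
    rw [show A.det * G l = _ from h4.symm]
    refine Ideal.sum_mem _ fun i _ => I.mul_mem_left _ ?_
    rw [Matrix.sub_mulVec, Matrix.smul_mulVec, Matrix.one_mulVec]
    exact h3 i

theorem hcomp_mul {σ : Type} {g : MvPolynomial σ ℂ} {e : ℕ} (hg : g.IsHomogeneous e)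
    (a : MvPolynomial σ ℂ) (k : ℕ) :
    homogeneousComponent (k + e) (a * g) = homogeneousComponent k a * g :=
  let := @MvPolynomial.gradedAlgebra σ ℂ _
  (decomposition.decompose'_apply _ _).symm.trans
    ((DirectSum.coe_decompose_mul_add_of_right_mem (homogeneousSubmodule σ ℂ) hg).trans
      (congrArg (· * g) (decomposition.decompose'_apply _ _)))

variable {L Λ : Type} [Field L] [Algebra ℂ L] {ρ n e : ℕ} {y : Fin (ρ + n + 1) → L}
  {G : Λ → Pol (ρ + n)}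

theorem ker_le (hG : Eqs y e G) {i : Fin (ρ + n + 1)} (hi : y i ≠ 0) {κ : Type} [CommRing κ]
    [Algebra ℂ κ] {ξ : Fin (ρ + n + 1) → κ} (h1 : ξ i = 1) (h0 : ∀ l, aeval ξ (G l) = 0)
    (g : Pol (ρ + n)) (hg : aeval (fun j => y j / y i) g = 0) : aeval ξ g = 0 :=
  sup_le (c := RingHom.ker (aeval ξ : Pol (ρ + n) →ₐ[ℂ] κ).toRingHom)
    (Ideal.span_le.2 (range_subset_iff.2 h0))
    ((Ideal.span_singleton_le_iff_mem _).2 (by simp [RingHom.mem_ker, h1])) (hG.chart hi hg)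

theorem chart_surj (y : Fin (ρ + n + 1) → L) (i : Fin (ρ + n + 1)) :
    ∃ f : Pol (ρ + n) →ₐ[ℂ] GD.chart y i, Function.Surjective f ∧
      ∀ g, (f g : L) = aeval (fun j => y j / y i) g := by
  have hv := comp_aeval_apply (fun j => (⟨y j / y i, Algebra.subset_adjoin ⟨j, rfl⟩⟩ :
    GD.chart y i)) (GD.chart y i).val
  refine ⟨_, fun a => ?_, hv⟩
  obtain ⟨f, hf⟩ := (Algebra.adjoin_range_eq_range_aeval ℂ _).le a.2
  exact ⟨f, Subtype.ext ((hv f).trans hf)⟩

theorem norat_of (hG : Eqs y e G) (hy : ∀ i, y i ≠ 0) (h : NoRatC y) : NoRat G := by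
  rintro x D ⟨P, -, h1, h2, j, j', h3⟩
  obtain ⟨i, hi⟩ : ∃ i, P i ≠ 0 := by
    by_contra h4
    push Not at h4
    exact h3 (by rw [h4, h4, mul_zero, mul_zero])
  have hi' : algebraMap (Polynomial ℂ) (RatFunc ℂ) (P i) ≠ 0 := RatFunc.algebraMap_ne_zero hi
  obtain ⟨f, hf, h4⟩ := chart_surj y i
  let Z : Fin (ρ + n + 1) → RatFunc ℂ := fun l =>
    (algebraMap (Polynomial ℂ) (RatFunc ℂ) (P i))⁻¹ * algebraMap (Polynomial ℂ) (RatFunc ℂ) (P l)
  have h5 : RingHom.ker f.toRingHom ≤ RingHom.ker (aeval (R := ℂ) Z).toRingHom := fun g hg =>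
    ker_le hG (hy i) (inv_mul_cancel₀ hi') (fun l => by
      rw [Def1.aeval_hom (hG.hom l)]
      exact mul_eq_zero_of_right _ ((aeval_algebraMap_apply (RatFunc ℂ) P _).trans
        ((congrArg _ (h1 l)).trans (map_zero _)))) g
      ((h4 g).symm.trans (congrArg Subtype.val hg))
  choose c hc using fun l => h i (AlgHom.liftOfSurjective f hf _ h5) (f (X l))
  have h6 : ∀ l, P l = Polynomial.C (c l) * P i := fun l => by
    have h6 := hc l
    rw [AlgHom.liftOfSurjective_apply, aeval_X, inv_mul_eq_iff_eq_mul₀ hi',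
      IsScalarTower.algebraMap_apply ℂ (Polynomial ℂ), ← map_mul, mul_comm] at h6
    exact RatFunc.algebraMap_injective ℂ h6
  refine h3 ?_
  rw [← h2 j, ← h2 j', h6 j, h6 j', Polynomial.coeff_C_mul, Polynomial.coeff_C_mul, map_mul,
    map_mul]
  ring

variable {Θ : Fin (n + 1) → Fin (ρ + n + 1) → L}

theorem tan_div (hG : Eqs y e G) (hk : ∀ l a, ∑ j, aeval y (pderiv j (G l)) * Θ a j = 0)
    (i : Fin (ρ + n + 1)) (l : Λ) (a : Fin (n + 1)) :
    ∑ j, aeval (fun j => y j / y i) (pderiv j (G l)) * Θ a j = 0 := by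
  simp only [div_eq_inv_mul, Def1.aeval_hom (hG.hom l).pderiv, mul_assoc]
  rw [← Finset.mul_sum, hk, mul_zero]

theorem loc_gen (hG : Eqs y e G) (hy : GD.SmoothModel y) (hΘ : pl Θ ≠ 0)
    (hk : ∀ l a, ∑ j, aeval y (pderiv j (G l)) * Θ a j = 0) {κ : Type} [Field κ] [Algebra ℂ κ]
    {ξ : Fin (ρ + n + 1) → κ} {i : Fin (ρ + n + 1)} (h1 : ξ i = 1) (h2 : ∀ l, aeval ξ (G l) = 0)
    {I : Fin ρ → Λ} {T : PN.Ix ρ n} (hT : aeval ξ (bm G I T) ≠ 0) {Q : Ideal (Pol (ρ + n))}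
    (hQ : ∀ g, g ∈ Q ↔ aeval ξ g = 0) (l : Λ) :
    bm G I T * G l ∈ Ideal.span (range fun r => G (I r)) ⊔ Q * Ideal.span (range G) := by
  have h3 := ker_le hG (hy i).1 h1 h2
  obtain ⟨f, hf, h4⟩ := chart_surj y i
  have hK : ∀ g, g ∈ RingHom.ker f.toRingHom ↔ aeval (fun j => y j / y i) g = 0 := fun g =>
    ⟨fun h => (h4 g).symm.trans (congrArg Subtype.val h), fun h => Subtype.ext ((h4 g).trans h)⟩
  have hJ : Ideal.span (range G) ≤ RingHom.ker f.toRingHom :=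
    Ideal.span_le.2 (range_subset_iff.2 fun l => (hK _).2 (by
      simp only [div_eq_inv_mul, Def1.aeval_hom (hG.hom l), hG.zero, mul_zero]))
  have h5 : pl Θ T ≠ 0 := fun h => by
    obtain ⟨T', hT'⟩ := Function.ne_iff.1 hΘ
    have h5 := (st_DET L ρ n fun r j => aeval (fun j => y j / y i) (pderiv j (G (I r)))).1 Θ
      (fun r => tan_div hG hk i (I r)) T T'
    rw [h, mul_zero, ← aeval_bm] at h5
    exact hT (h3 _ ((mul_eq_zero.1 h5).resolve_right hT'))
  have := (hy i).2.2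
  obtain ⟨a, b, h6⟩ := cramer (fun r j => pderiv j (G (I r))) T fun j => pderiv j (G l)
  have h7 : (fun t => aeval (fun j => y j / y i) (b t)) = 0 := by
    refine Matrix.eq_zero_of_mulVec_eq_zero (M := Matrix.of fun a t => Θ a (T t)) h5
      (funext fun s => ?_)
    have h7 := Finset.sum_congr (s₁ := Finset.univ) rfl fun j _ =>
      congrArg (fun z => aeval (fun j => y j / y i) z * Θ s j) (h6 j)
    simp only [map_mul, map_add, map_sum, apply_ite (aeval fun j => y j / y i), map_zero, add_mul,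
      Finset.sum_mul, Finset.sum_add_distrib, mul_assoc, ite_mul, zero_mul] at h7
    rw [← Finset.mul_sum, tan_div hG hk, mul_zero, Finset.sum_comm, Finset.sum_eq_zero
      fun r _ => by rw [← Finset.mul_sum, tan_div hG hk, mul_zero], zero_add,
      Finset.sum_comm] at h7
    simpa [Matrix.mulVec, dotProduct, mul_comm] using h7.symm
  have hm : ∀ l, G l ∈ Ideal.span (range G) := fun l => Ideal.subset_span ⟨l, rfl⟩
  have h8 : bm G I T * G l - ∑ r, a r * G (I r) ∈ Ideal.span (range G) :=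
    sub_mem (Ideal.mul_mem_left _ _ (hm l))
      (Ideal.sum_mem _ fun r _ => Ideal.mul_mem_left _ _ (hm _))
  have h9 := conormal_pt f hf (Q := Q) (fun g hg => (hQ g).2 (h3 g ((hK g).1 hg))) (hJ h8)
    fun j => (hQ _).2 (by
      have h9 := congrArg (aeval ξ) (h6 j)
      have h10 : ∀ t, aeval ξ (b t) = 0 := fun t => h3 _ (congrFun h7 t)
      simp only [map_mul, map_add, map_sum, apply_ite (aeval ξ), map_zero, h10, ite_self,
        Finset.sum_const_zero, add_zero] at h9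
      simp only [map_sub, map_sum, Derivation.leibniz, smul_eq_mul, map_add, map_mul, h2,
        zero_mul, add_zero]
      exact sub_eq_zero.2 h9)
  have h10 := Ideal.mul_mono_right (K := Ideal.span (range G) ⊔ Ideal.span {X i - 1})
    (fun g hg => hG.chart (hy i).1 ((hK g).1 hg)) h9
  rw [Ideal.mul_sup] at h10
  obtain ⟨u, hu, v, hv, h11⟩ := Submodule.mem_sup.1 h10
  obtain ⟨w, rfl⟩ := Ideal.mem_span_singleton'.1 (Ideal.mul_le_right hv)
  have h12 : w ∈ Ideal.span (range G) := Def1.cancel hG.hom i (by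
    rw [mul_comm, eq_sub_of_add_eq' h11]
    exact sub_mem h8 (Ideal.mul_le_right hu))
  rw [eq_add_of_sub_eq' h11.symm]
  refine Submodule.add_mem_sup (Ideal.sum_mem _ fun r _ =>
    Ideal.mul_mem_left _ _ (Ideal.subset_span ⟨r, rfl⟩)) (add_mem hu ?_)
  rw [mul_comm w]
  exact Ideal.mul_mem_mul ((hQ _).2 (by simp [h1])) h12

theorem alg_of [Fintype Λ] (hG : Eqs y e G) (hy : GD.SmoothModel y) (hn : Algebra.trdeg ℂ L = n)
    (hΘ : pl Θ ≠ 0) (hk : ∀ l a, ∑ j, aeval y (pderiv j (G l)) * Θ a j = 0) : Alg ρ e G := by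
  refine ⟨hG.pos, hG.hom, fun κ _ _ ξ₀ hξ h0 => ?_⟩
  obtain ⟨i, hi⟩ := Function.ne_iff.1 hξ
  obtain ⟨ξ, hξ⟩ : ∃ ξ, ξ = fun j => (ξ₀ i)⁻¹ * ξ₀ j := ⟨_, rfl⟩
  have h1 : ξ i = 1 := by
    rw [hξ]
    exact inv_mul_cancel₀ hi
  have h2 : ∀ l, aeval ξ (G l) = 0 := fun l => by
    rw [hξ, Def1.aeval_hom (hG.hom l), h0, mul_zero]
  obtain ⟨S, hS⟩ := st_jac L Λ _ n ρ e y G hy hn rfl hG i κ ξ (ker_le hG (hy i).1 h1 h2)
  obtain ⟨I, hI⟩ := Function.ne_iff.1 hS
  replace hI : aeval ξ (amin G S I) ≠ 0 := hI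
  obtain ⟨⟨T, hT⟩, -⟩ := (st_DET κ ρ n _).2.2 (Cert.indep hI)
  rw [← aeval_bm] at hT
  have := RingHom.ker_isPrime (aeval ξ : Pol (ρ + n) →ₐ[ℂ] κ).toRingHom
  obtain ⟨δ, h6, h7⟩ := nakayama G (Q := RingHom.ker (aeval ξ : Pol (ρ + n) →ₐ[ℂ] κ).toRingHom) hT
    (loc_gen hG hy hΘ hk h1 h2 hT fun _ => Iff.rfl)
  obtain ⟨k, h8⟩ : ∃ k, aeval ξ (homogeneousComponent k δ) ≠ 0 := by
    by_contra h8
    push Not at h8
    refine h6 (show aeval ξ δ = 0 from ?_)
    rw [← sum_homogeneousComponent δ, map_sum]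
    exact Finset.sum_eq_zero fun k _ => h8 k
  refine ⟨I, S, homogeneousComponent k δ, fun h => hI ?_, fun h => h8 ?_, fun l => ?_⟩
  · have h9 : ∀ w : Fin (ρ + n + 1) → κ, aeval w (amin G S I) =
        (Matrix.of fun r s => aeval w (pderiv (S r) (G (I s)))).det := fun w =>
      (congrFun (pl_map (aeval w : Pol (ρ + n) →ₐ[ℂ] κ).toRingHom
        fun r l => pderiv (S r) (G l)) I).symm
    rw [h9] at h ⊢
    rw [show (Matrix.of fun r s => aeval ξ (pderiv (S r) (G (I s)))) = (ξ₀ i)⁻¹ ^ (e - 1) •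
      Matrix.of fun r s => aeval ξ₀ (pderiv (S r) (G (I s))) from Matrix.ext fun r s => by
        rw [hξ]
        exact Def1.aeval_hom (hG.hom _).pderiv _ _, Matrix.det_smul, h, mul_zero]
  · rw [hξ, Def1.aeval_hom (homogeneousComponent_isHomogeneous k δ), h, mul_zero]
  · obtain ⟨a, ha⟩ := Ideal.mem_span_range_iff_exists_fun.1 (h7 l)
    rw [← hcomp_mul (hG.hom l), ← ha, map_sum]
    refine Ideal.sum_mem _ fun r _ => ?_
    rw [hcomp_mul (hG.hom (I r))]
    exact Ideal.mul_mem_left _ _ (Ideal.subset_span ⟨r, rfl⟩)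

/-- Theorem of Mori for a smooth model. -/
theorem cnef_of_norat {m : ℕ} (X : A35.Mod₀ L m) (h : NoRatC X.y) : CNef (m + 1) X.y X.G := by
  have hn := A35.FRG.trdeg X
  obtain ⟨N, y, x, d, sm, y0, tb, dual⟩ := X
  obtain ⟨h1, h2, h3⟩ := st_tan L N m y x d y0 (sm 0).2.1 dual
  obtain ⟨ρ, rfl⟩ := Nat.exists_eq_add_of_le' h2
  obtain ⟨e, Λ, _, G, hG⟩ := exists_eqs (k := ℂ) y
  have hk := fun l => h3 e _ (hG.hom l) (hG.zero l)
  have hA := alg_of hG sm hn h1 hk
  intro O i j hy hp hi hj κ F _ _ _ _ _ _ _ χ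
  have hv : ∀ g : Pol (ρ + m), aeval (fun l => χ ⟨_, hy l⟩) g = χ (aeval (fun l => ⟨_, hy l⟩) g) :=
    fun g => (comp_aeval_apply _ χ g).symm
  have hw : ∀ g : Pol (ρ + m), ((aeval (fun l => ⟨_, hy l⟩) g : O) : L) =
      aeval (fun l => y l / y i) g := fun g => comp_aeval_apply _ O.val g
  have hY : (fun l => χ ⟨_, hy l⟩) ≠ 0 := Function.ne_iff.2 ⟨i, by
    rw [show (⟨_, hy i⟩ : O) = 1 from Subtype.ext (div_self hi), map_one]
    exact one_ne_zero⟩
  have h0 : ∀ l, aeval (fun l => χ ⟨_, hy l⟩) (G l) = 0 := fun l => by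
    rw [hv, show aeval (fun l => (⟨_, hy l⟩ : O)) (G l) = 0 from Subtype.ext ((hw _).trans (by
      simp only [div_eq_inv_mul, Def1.aeval_hom (hG.hom l), hG.zero, mul_zero]; rfl)), map_zero]
  obtain ⟨I, S, δ, hC⟩ := hA.cert F _ hY h0
  have h4 := st_MOR st_DET (st_MR0 (st_RAT st_SPC)) st_MR1 st_SWP ρ m e Λ G hA
    (norat_of hG (fun i => (sm i).1) h) κ F _ I S δ hY h0 hC
  obtain ⟨⟨T, hT⟩, -⟩ := (st_DET F ρ m _).2.2 (Cert.indep hC.min)
  have h5 : ∀ T, aeval (fun l => χ ⟨_, hy l⟩) (bm G I T) =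
      aeval (fun l => χ ⟨_, hy l⟩) (bm G I j) * χ ⟨_, hp T⟩ := fun T => by
    rw [hv, hv, ← map_mul]
    refine congrArg χ (Subtype.ext ?_)
    rw [Subalgebra.coe_mul, hw, hw, aeval_bm, aeval_bm, ← mul_div_assoc]
    exact eq_div_of_mul_eq hj ((st_DET L ρ m _).1 _ (fun r => tan_div hG hk i (I r)) T j)
  rw [← aeval_bm, h5] at hT
  rw [funext h5, NORM.ht_mul (left_ne_zero_of_mul hT)] at h4
  exact_mod_cast h4

/-- The theorem for the canonical class, in terms of complex curves. -/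
theorem kin (hKIN : A35.St_KIN) {e : ℕ} (X : A35.Mod₀ L (e + 1)) {N : ℕ}
    {g : ℕ → MvPolynomial (Fin (X.N + 1)) ℂ} (hg : ∀ m, aeval X.y (g m) ≠ 0)
    (h' : NefC (e + 2) X.y X.G ∨ NoRatC X.y) (h : HypC (e + 2) X.y X.G N g) :
    (((e + 1 : ℕ) : ℕ∞) : WithBot ℕ∞) ≤ MP_9a2ae6_ag.kodaira ℂ L (e + 1) :=
  kin_nef hKIN X hg (h'.elim id fun h1 => (cnef_of_norat X h1).nefC) h

end Pool.Agent.Lib.NAK
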